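import Mathlib
import Pool.Agent.R473.TB.Fin
import Pool.Agent.R473.FP.Pieces

set_option autoImplicit false

/-!
# Stretches of digits which satisfy a linear recurrence of small order
-/

namespace Pool.Agent.U55.PB

open Finset Polynomial
open Pool.Agent.R473.TB (Zd Zd_abs Zd_eq)
open Pool.Agent.H831R3.LC (W W_eq)

/-- the bound for the exponents of the heights -/
def TT (m : ℕ) : ℕ := 8 * m + 20

/-- a linear recurrence of order `m` over `ℚ` on the places `u, …, v - 1` -/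
def Rec (D : ℕ → ℤ) (m u v : ℕ) : Prop := ∃ c : ℕ → ℚ, ∀ i, u ≤ i → i + m < v →
  (D (i + m) : ℚ) = ∑ l ∈ range m, c l * (D (i + l) : ℚ)

/-- the value of a stretch -/
theorem piece_sum {b : ℕ} (hb : 2 ≤ b) (a : ℕ → ℤ) (ha : ∀ k, |a k| ≤ (b : ℤ) - 1) (t : ℤ[X])
    (M r H : ℕ) (htd : t.natDegree ≤ M) (htH : ∀ i, |t.coeff i| ≤ H)
    (htr : ∀ i < r, W t a i = 0) (ht0 : t.eval (b : ℤ) ≠ 0) :
    ∃ p q : ℤ, |p| ≤ (M + 1) * H * (b : ℤ) ^ M ∧ |q| ≤ (M + 1) * H * (b : ℤ) ^ M ∧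
      ∑ k ∈ range (r + M), (a k : ℝ) / (b : ℝ) ^ (k + 1) =
        (p : ℝ) / (t.eval (b : ℤ) : ℤ) + (q : ℝ) / (t.eval (b : ℤ) : ℤ) / (b : ℝ) ^ (r + M) := by
  have hb0 : (b : ℝ) ≠ 0 := by positivity
  have hbz : (0 : ℤ) < b := by positivity
  have hbz1 : (1 : ℤ) ≤ b := by exact_mod_cast (by omega : 1 ≤ b)
  have hD0 : (((t.eval (b : ℤ) : ℤ)) : ℝ) ≠ 0 := by exact_mod_cast ht0
  -- partial sums
  set F : ℕ → ℝ := fun n => ∑ k ∈ range n, (a k : ℝ) / (b : ℝ) ^ (k + 1) with hF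
  have hrel : ∑ l ∈ range (M + 1), (t.coeff l : ℝ) * (b : ℝ) ^ l * (F (r + l) - F l) = 0 := by
    have h1 : ∀ l, F (r + l) - F l = ∑ i ∈ range r, (a (i + l) : ℝ) / (b : ℝ) ^ (i + l + 1) := by
      intro l
      simp only [hF]
      rw [add_comm r l, Finset.sum_range_add]
      rw [add_sub_cancel_left]
      refine sum_congr rfl fun i _ => ?_
      rw [add_comm l i]
    simp only [h1]
    have h2 : ∀ l ∈ range (M + 1), (t.coeff l : ℝ) * (b : ℝ) ^ l *
        ∑ i ∈ range r, (a (i + l) : ℝ) / (b : ℝ) ^ (i + l + 1) =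
        ∑ i ∈ range r, (t.coeff l : ℝ) * (a (i + l) : ℝ) / (b : ℝ) ^ (i + 1) := by
      intro l _
      rw [mul_sum]
      refine sum_congr rfl fun i _ => ?_
      have e1 : (b : ℝ) ^ (i + l + 1) = (b : ℝ) ^ (i + 1) * (b : ℝ) ^ l := by
        rw [← pow_add]; congr 1; ring
      rw [e1]
      field_simp
    rw [sum_congr rfl h2, sum_comm]
    refine sum_eq_zero fun i hi => ?_
    rw [mem_range] at hi
    have h3 := htr i hi
    rw [W_eq t a i (M + 1) (by omega)] at h3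
    rw [← sum_div]
    have h4 : ∑ l ∈ range (M + 1), (t.coeff l : ℝ) * (a (i + l) : ℝ) = 0 := by exact_mod_cast h3
    rw [h4, zero_div]
  have htail : ∀ l ∈ range (M + 1), F (r + l) = F (r + M) -
      (Zd b (fun j => a (r + l + j)) (M - l) : ℝ) / (b : ℝ) ^ (r + M) := by
    intro l hl
    rw [mem_range] at hl
    obtain ⟨d, hd⟩ : ∃ d, M = l + d := ⟨M - l, by omega⟩
    have e0 : M - l = d := by omega
    rw [e0]
    have h1 := Zd_eq hb (fun j => a (r + l + j)) d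
    have h2 : F (r + M) = F (r + l) + ∑ j ∈ range d, (a (r + l + j) : ℝ) / (b : ℝ) ^ (r + l + j + 1) := by
      simp only [hF]
      rw [hd, ← add_assoc, Finset.sum_range_add]
    have h3 : ∑ j ∈ range d, (a (r + l + j) : ℝ) / (b : ℝ) ^ (r + l + j + 1) =
        (Zd b (fun j => a (r + l + j)) d : ℝ) / (b : ℝ) ^ (r + M) := by
      have e1 : (Zd b (fun j => a (r + l + j)) d : ℝ) / (b : ℝ) ^ (r + M) =
          ((Zd b (fun j => a (r + l + j)) d : ℝ) / (b : ℝ) ^ d) / (b : ℝ) ^ (r + l) := by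
        rw [div_div, ← pow_add]
        congr 2
        omega
      rw [e1, h1, sum_div]
      refine sum_congr rfl fun j _ => ?_
      rw [div_div, ← pow_add]
      congr 2
      ring
    rw [h2, h3]
    ring
  have hhead : ∀ l, (b : ℝ) ^ l * F l = Zd b a l := by
    intro l
    simp only [hF]
    rw [← Zd_eq hb a l]
    field_simp
  have hev : ((t.eval (b : ℤ) : ℤ) : ℝ) = ∑ l ∈ range (M + 1), (t.coeff l : ℝ) * (b : ℝ) ^ l := by
    rw [eval_eq_sum_range' (n := M + 1) (by omega)]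
    push_cast
    rfl
  refine ⟨∑ l ∈ range (M + 1), t.coeff l * Zd b a l,
    ∑ l ∈ range (M + 1), t.coeff l * (b : ℤ) ^ l * Zd b (fun j => a (r + l + j)) (M - l), ?_, ?_, ?_⟩
  · refine (abs_sum_le_sum_abs _ _).trans ?_
    have h1 : ∀ l ∈ range (M + 1), |t.coeff l * Zd b a l| ≤ H * (b : ℤ) ^ M := by
      intro l hl
      rw [mem_range] at hl
      rw [abs_mul]
      have h2 := Zd_abs hb ha l
      have h3 : (b : ℤ) ^ l ≤ (b : ℤ) ^ M := pow_le_pow_right₀ hbz1 (by omega)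
      exact mul_le_mul (htH l) (by linarith) (abs_nonneg _) (by positivity)
    refine (sum_le_sum h1).trans (le_of_eq ?_)
    rw [sum_const, card_range, nsmul_eq_mul]
    push_cast
    ring
  · refine (abs_sum_le_sum_abs _ _).trans ?_
    have h1 : ∀ l ∈ range (M + 1), |t.coeff l * (b : ℤ) ^ l *
        Zd b (fun j => a (r + l + j)) (M - l)| ≤ H * (b : ℤ) ^ M := by
      intro l hl
      rw [mem_range] at hl
      rw [abs_mul, abs_mul, abs_of_pos (by positivity : (0 : ℤ) < (b : ℤ) ^ l)]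
      have h2 := Zd_abs hb (D := fun j => a (r + l + j)) (fun j => ha _) (M - l)
      have h3 : (b : ℤ) ^ M = (b : ℤ) ^ l * (b : ℤ) ^ (M - l) := by
        rw [← pow_add]; congr 1; omega
      have h4 := htH l
      calc |t.coeff l| * (b : ℤ) ^ l * |Zd b (fun j => a (r + l + j)) (M - l)|
          ≤ H * (b : ℤ) ^ l * (b : ℤ) ^ (M - l) := by
            gcongr
            linarith
        _ = _ := by rw [h3]; ring
    refine (sum_le_sum h1).trans (le_of_eq ?_)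
    rw [sum_const, card_range, nsmul_eq_mul]
    push_cast
    ring
  · change F (r + M) = _
    have h1 : ∑ l ∈ range (M + 1), (t.coeff l : ℝ) * (b : ℝ) ^ l * (F (r + l) - F l) =
        (t.eval (b : ℤ) : ℤ) * F (r + M) -
        (∑ l ∈ range (M + 1), (t.coeff l : ℝ) * (b : ℝ) ^ l *
          (Zd b (fun j => a (r + l + j)) (M - l) : ℝ)) / (b : ℝ) ^ (r + M) -
        ∑ l ∈ range (M + 1), (t.coeff l : ℝ) * Zd b a l := by
      rw [hev, sum_mul, sum_div, ← sum_sub_distrib, ← sum_sub_distrib]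
      refine sum_congr rfl fun l hl => ?_
      rw [htail l hl, ← hhead l]
      ring
    rw [hrel] at h1
    push_cast
    field_simp at h1 ⊢
    linarith

lemma two_mul_le_pow {b : ℕ} (hb : 2 ≤ b) (n : ℕ) : (n : ℤ) + 1 ≤ (b : ℤ) ^ n := by
  have h1 : n < b ^ n := Nat.lt_pow_self (by omega)
  exact_mod_cast h1

/-- **The value of a stretch which satisfies a linear recurrence of order `m`.** -/
theorem piece {b : ℕ} (hb : 2 ≤ b) (D : ℕ → ℤ) (hD : ∀ k, |D k| ≤ (b : ℤ) - 1) (m u v : ℕ)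
    (huv : u ≤ v) (hrec : Rec D m u v) : ∃ p q d : ℤ, d ≠ 0 ∧ |d| ≤ (b : ℤ) ^ TT m ∧
      |p| ≤ (b : ℤ) ^ TT m ∧ |q| ≤ (b : ℤ) ^ TT m ∧
      ∑ k ∈ Ico u v, (D k : ℝ) / (b : ℝ) ^ (k + 1) =
        (p : ℝ) / d / (b : ℝ) ^ u + (q : ℝ) / d / (b : ℝ) ^ v := by
  have hb0 : (b : ℝ) ≠ 0 := by positivity
  have hbz1 : (1 : ℤ) ≤ b := by exact_mod_cast (by omega : 1 ≤ b)
  obtain ⟨n, rfl⟩ : ∃ n, v = u + n := ⟨v - u, by omega⟩
  obtain ⟨a, ha⟩ : ∃ a : ℕ → ℤ, a = fun i => if i < n then D (u + i) else 0 := ⟨_, rfl⟩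
  have ha1 : ∀ i, i < n → a i = D (u + i) := fun i hi => by rw [ha]; simp [hi]
  have hbz2 : (2 : ℤ) ≤ b := by exact_mod_cast hb
  have ha2 : ∀ i, |a i| ≤ (b : ℤ) - 1 := by
    intro i
    by_cases hi : i < n
    · rw [ha1 i hi]; exact hD _
    · rw [ha]; simp only [hi, if_false, abs_zero]; linarith
  have ha3 : ∀ i, |a i| ≤ (b : ℤ) := fun i => (ha2 i).trans (by linarith)
  have hsum : ∑ k ∈ Ico u (u + n), (D k : ℝ) / (b : ℝ) ^ (k + 1) =
      (∑ k ∈ range n, (a k : ℝ) / (b : ℝ) ^ (k + 1)) / (b : ℝ) ^ u := by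
    rw [sum_Ico_eq_sum_range, Nat.add_sub_cancel_left, sum_div]
    refine sum_congr rfl fun k hk => ?_
    rw [mem_range] at hk
    rw [ha1 k hk, div_div, ← pow_add]
    congr 2
    ring
  -- the parameters
  set M : ℕ := m + (m + 1) with hM
  set H : ℕ := ((m + 1 + (m + 1)) * b) ^ 1 with hH
  have hMH : (M + 1) * H = (2 * m + 2) * ((2 * m + 2) * b) := by rw [hM, hH, pow_one]; ring
  have hm2 : ((2 * m + 2 : ℕ) : ℤ) ≤ (b : ℤ) ^ (2 * m + 2) :=
    le_trans (by linarith) (two_mul_le_pow hb (2 * m + 2))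
  have hbound : (((M : ℤ) + 1) * H * (b : ℤ) ^ M) ≤ (b : ℤ) ^ TT m := by
    have e1 : ((M : ℤ) + 1) * H = ((2 * m + 2 : ℕ) : ℤ) * (((2 * m + 2 : ℕ) : ℤ) * b) := by
      exact_mod_cast hMH
    rw [e1]
    calc ((2 * m + 2 : ℕ) : ℤ) * (((2 * m + 2 : ℕ) : ℤ) * b) * (b : ℤ) ^ M
        ≤ (b : ℤ) ^ (2 * m + 2) * ((b : ℤ) ^ (2 * m + 2) * b) * (b : ℤ) ^ M := by gcongr
      _ = (b : ℤ) ^ ((2 * m + 2) + (2 * m + 2) + 1 + M) := by ring
      _ ≤ _ := pow_le_pow_right₀ hbz1 (by rw [hM, TT]; omega)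
  by_cases hlong : M ≤ n ∧ (M + 1) * H * b < b ^ (n - M)
  · obtain ⟨hMn, hbig⟩ := hlong
    obtain ⟨c, hc⟩ := hrec
    obtain ⟨t, ht0, htd, htH, htr⟩ := Pool.Agent.W928.JL.small 1 (fun _ => a) b (by omega)
      (fun _ => ha3) m (m + 1) (n - M) n 1 (by omega) (by omega) (by omega) c (fun _ i hi => by
        rw [ha1 _ hi, ← add_assoc, hc (u + i) (by omega) (by omega)]
        refine sum_congr rfl fun l hl => ?_
        rw [mem_range] at hl
        rw [ha1 _ (by omega), ← add_assoc])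
    obtain ⟨t', htd', htH', htr', ht0'⟩ := Pool.Agent.W639.JL.desc 1 (fun _ => a) b b H M (n - M) hb
      (fun _ => ha3) hbig t htd ht0 htH htr
    obtain ⟨p, q, hp, hq, hpq⟩ := piece_sum hb a ha2 t' M (n - M) H htd' htH' (htr' 0) ht0'
    have e1 : n - M + M = n := by omega
    rw [e1] at hpq
    refine ⟨p, q, t'.eval (b : ℤ), ht0', ?_, hp.trans hbound, hq.trans hbound, ?_⟩
    · exact (Pool.Agent.W47.JL.eval_le t' H M b (by omega) htH' htd').trans hbound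
    · rw [hsum, hpq, pow_add]
      field_simp
  · -- a short stretch
    have hn : n ≤ TT m := by
      by_contra hcon
      push Not at hcon
      apply hlong
      rw [TT] at hcon
      refine ⟨by rw [hM]; omega, ?_⟩
      have h1 : ((M : ℤ) + 1) * H * b < (b : ℤ) ^ (n - M) := by
        have e1 : ((M : ℤ) + 1) * H = ((2 * m + 2 : ℕ) : ℤ) * (((2 * m + 2 : ℕ) : ℤ) * b) := by
          exact_mod_cast hMH
        rw [e1]
        calc ((2 * m + 2 : ℕ) : ℤ) * (((2 * m + 2 : ℕ) : ℤ) * b) * b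
            ≤ (b : ℤ) ^ (2 * m + 2) * ((b : ℤ) ^ (2 * m + 2) * b) * b := by gcongr
          _ = (b : ℤ) ^ ((2 * m + 2) + (2 * m + 2) + 2) := by ring
          _ < _ := pow_lt_pow_right₀ (by linarith) (by rw [hM]; omega)
      exact_mod_cast h1
    refine ⟨0, Zd b a n, 1, one_ne_zero, ?_, ?_, ?_, ?_⟩
    · rw [abs_one]; exact one_le_pow₀ hbz1
    · rw [abs_zero]; positivity
    · have h1 := Zd_abs hb ha2 n
      have h2 : (b : ℤ) ^ n ≤ (b : ℤ) ^ TT m := pow_le_pow_right₀ hbz1 hn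
      linarith
    · rw [hsum, ← Zd_eq hb a n, pow_add]
      push_cast
      field_simp
      ring

end Pool.Agent.U55.PB
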