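import Mathlib
import Pool.Agent.TH796.AL.TwoB
import Pool.Agent.R473.TB.Fin

set_option autoImplicit false
set_option linter.unusedSectionVars false

/-!
# Real numbers which are sums of a block and of few terms with small coefficients, in any base

Port of `Pool.Agent.R473.TB.AC.rep_add` from two coprime bases to `Pool.Agent.TH796.AL.RepV`.
-/

namespace Pool.Agent.U55.PB

open Filter Topology Pool.Agent.TH932.Abs Pool.Agent.TH932.Germs Pool.Agent.TH932.Chi
open Pool.Agent.TH932.Words Pool.Agent.TH932.Scale Pool.Agent.TH796.AL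

variable {m : ℕ} {B : Base m} {L : ℕ → ℝ} {hL : Tendsto L atTop atTop}
  {V : Submodule ℝ (Fin m → ℝ)}

/-- combinations of generators with exponents in `V` -/
def Cb (B : Base m) (hL : Tendsto L atTop atTop) (V : Submodule ℝ (Fin m → ℝ)) {Z : Type}
    [Fintype Z] (w : Z → GG) (S : GG) : Prop := ∃ P : Z → Rg m hL,
  (∀ j g, (P j).coeff g ≠ 0 → g ∈ V) ∧ S = ∑ j, ev B hL (P j) * w j

variable {Z : Type} [Fintype Z] {w : Z → GG}

lemma Cb.add {S T : GG} (hS : Cb B hL V w S) (hT : Cb B hL V w T) : Cb B hL V w (S + T) := by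
  obtain ⟨P, h1, h2⟩ := hS
  obtain ⟨P', h1', h2'⟩ := hT
  refine ⟨fun j => P j + P' j, fun j g hg => ?_, ?_⟩
  · by_cases h : (P j).coeff g = 0
    · apply h1' j
      intro h'
      apply hg
      rw [AddMonoidAlgebra.coeff_add, Finsupp.add_apply, h, h', add_zero]
    · exact h1 j g h
  · rw [h2, h2', ← Finset.sum_add_distrib]
    refine Finset.sum_congr rfl fun j _ => ?_
    rw [map_add, add_mul]

lemma Cb.zero : Cb B hL V w 0 := by
  refine ⟨fun _ => 0, fun j g hg => absurd (by simp) hg, ?_⟩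
  simp

lemma Cb.sum {ι : Type*} (s : Finset ι) (f : ι → GG) (h : ∀ i ∈ s, Cb B hL V w (f i)) :
    Cb B hL V w (∑ i ∈ s, f i) :=
  Finset.sum_induction f (Cb B hL V w) (fun _ _ => Cb.add) Cb.zero h

lemma Cb.mul {S : GG} (hS : Cb B hL V w S) (κ : KK L hL) {g : Fin m → ℝ} (hg : g ∈ V) :
    Cb B hL V w ((κ : GG) * ch B hL g * S) := by
  obtain ⟨P, h1, h2⟩ := hS
  refine ⟨fun j => AddMonoidAlgebra.single g κ * P j, ?_, ?_⟩
  · intro j h hh
    rw [AddMonoidAlgebra.coeff_single_mul_apply] at hh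
    have h3 : (P j).coeff (-g + h) ≠ 0 := by
      intro h4
      apply hh
      rw [h4, mul_zero]
    have h4 := h1 j _ h3
    have h5 := V.add_mem hg h4
    rwa [add_neg_cancel_left] at h5
  · rw [h2, Finset.mul_sum]
    refine Finset.sum_congr rfl fun j _ => ?_
    rw [map_mul, ev_single]
    ring

lemma Cb.gen (i : Z) : Cb B hL V w (w i) := by
  classical
  refine ⟨fun j => if j = i then AddMonoidAlgebra.single 0 1 else 0, ?_, ?_⟩
  · intro j g hg
    by_cases h0 : g = 0
    · rw [h0]; exact V.zero_mem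
    · exfalso
      apply hg
      by_cases hj : j = i
      · simp only [if_pos hj]
        rw [AddMonoidAlgebra.coeff_single, Finsupp.single_eq_of_ne h0]
      · simp only [if_neg hj]
        simp
  · have h1 : ∀ j : Z, ev B hL (if j = i then
        AddMonoidAlgebra.single 0 1 else 0) * w j = if j = i then w i else 0 := by
      intro j
      split_ifs with h
      · rw [h, ev_single, ch_zero]; simp
      · rw [map_zero, zero_mul]
    simp only [h1]
    rw [Finset.sum_ite_eq' Finset.univ i]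
    simp

/-- powers of the base -/
lemma pow_const {b : ℕ} (e : Fin m → ℕ) (hbe : b = ∏ i, B.P i ^ e i)
    (hV : (fun i => (e i : ℝ)) ∈ V) {c : ℕ → ℕ} {t : ℝ} (ht : near L (fun n => (c n : ℝ)) t) :
    ∃ (κ : KK L hL) (g : Fin m → ℝ), g ∈ V ∧
      gm (fun n => 1 / (b : ℚ) ^ (c n)) = (κ : GG) * ch B hL g := by
  have h1 : ∀ i, ∀ ε : ℝ, 0 < ε → ∀ᶠ n in (UU : Filter ℕ),
      |((-((c n : ℤ) * e i) : ℤ) : ℝ) - (-t * e i) * L n| ≤ ε * L n := by
    intro i ε hε
    have he0 : (0 : ℝ) ≤ e i := Nat.cast_nonneg _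
    filter_upwards [ht (ε / (e i + 1)) (by positivity), L_nonneg hL] with n h2 h3
    push_cast
    have e1 : -((c n : ℝ) * e i) - -t * e i * L n = -(e i * ((c n : ℝ) - t * L n)) := by ring
    rw [e1, abs_neg, abs_mul, abs_of_nonneg he0]
    calc (e i : ℝ) * |(c n : ℝ) - t * L n| ≤ (e i + 1) * (ε / (e i + 1) * L n) := by
          gcongr; linarith
      _ = ε * L n := by field_simp
  obtain ⟨κ, -, h2⟩ := exists_const (B := B) hL (fun i => -t * e i)
    (fun n i => -((c n : ℤ) * e i)) h1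
  refine ⟨κ, fun i => -t * e i, ?_, ?_⟩
  · have h3 := V.smul_mem (-t) hV
    have e1 : (fun i => -t * (e i : ℝ)) = -t • fun i => (e i : ℝ) := by
      funext i
      rw [Pi.smul_apply, smul_eq_mul]
    rw [e1]
    exact h3
  · rw [← h2]
    congr 1
    funext n
    have h3 : (b : ℚ) = ∏ i, (B.P i : ℚ) ^ e i := by
      exact_mod_cast congrArg (fun n : ℕ => (n : ℚ)) hbe
    rw [h3, ← Finset.prod_pow, one_div, ← Finset.prod_inv_distrib]
    refine Finset.prod_congr rfl fun i _ => ?_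
    rw [zpow_neg, ← pow_mul]
    congr 1
    rw [mul_comm, ← zpow_natCast]
    push_cast
    rfl

/-- blocks are `S`-integral -/
lemma block_sint (hL : Tendsto L atTop atTop) {b : ℕ} (e : Fin m → ℕ) (hbe : b = ∏ i, B.P i ^ e i) {z : ℕ → ℤ} {h : ℕ → ℕ}
    {H : ℝ} (hH : 0 ≤ H) (hh : ∀ n, (h n : ℝ) ≤ H * L n) :
    Sint B L (gm (fun n => (z n : ℚ) / (b : ℚ) ^ h n)) := by
  have h0 : ∀ i, 0 ≤ (e i : ℝ) * Real.log (B.P i) := fun i =>
    mul_nonneg (Nat.cast_nonneg _) (B.log_pos i).le
  refine ⟨-(H * ∑ i, (e i : ℝ) * Real.log (B.P i)), ?_⟩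
  rw [mem_SS]
  intro ε hε
  filter_upwards [L_nonneg hL] with n h1
  have h6 : 0 ≤ ε * L n := by positivity
  refine ⟨1, z n, fun i => -((h n : ℤ) * e i), one_ne_zero, ?_, ?_, fun i => ?_⟩
  · rw [Int.cast_one, abs_one]
    exact Real.one_le_exp h6
  · have h3 : (b : ℚ) = ∏ i, (B.P i : ℚ) ^ e i := by
      exact_mod_cast congrArg (fun n : ℕ => (n : ℚ)) hbe
    have h4 : ∏ i, (B.P i : ℚ) ^ (-((h n : ℤ) * e i)) = ((b : ℚ) ^ h n)⁻¹ := by
      rw [h3, ← Finset.prod_pow, ← Finset.prod_inv_distrib]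
      refine Finset.prod_congr rfl fun i _ => ?_
      rw [zpow_neg, ← pow_mul]
      congr 1
      rw [mul_comm (e i), ← zpow_natCast]
      push_cast
      rfl
    rw [h4, Int.cast_one, one_mul, div_eq_inv_mul]
  · push_cast
    have h2 : (e i : ℝ) * Real.log (B.P i) ≤ ∑ i, (e i : ℝ) * Real.log (B.P i) :=
      Finset.single_le_sum (f := fun i => (e i : ℝ) * Real.log (B.P i)) (fun i _ => h0 i)
        (Finset.mem_univ i)
    have h3 : (h n : ℝ) * ((e i : ℝ) * Real.log (B.P i)) ≤
        H * L n * ∑ i, (e i : ℝ) * Real.log (B.P i) :=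
      mul_le_mul (hh n) h2 (h0 i) (by positivity)
    nlinarith

/-- **A block and few terms.** -/
theorem rep_terms (hL : Tendsto L atTop atTop) {b : ℕ} (hb : 2 ≤ b) (e : Fin m → ℕ)
    (hbe : b = ∏ i, B.P i ^ e i)
    (hV : (fun i => (e i : ℝ)) ∈ V) {x : ℝ} (z : ℕ → ℤ) (h : ℕ → ℕ) {H : ℝ}
    (hH : 0 ≤ H) (hz : ∀ n, |z n| ≤ (b : ℤ) ^ h n) (hh : ∀ n, (h n : ℝ) ≤ H * L n)
    (hE : ∀ E : ℝ, ∃ (r : ℕ) (c : Fin r → ℕ → ℚ) (t : Fin r → ℕ → ℕ),
      (∀ i, gm (c i) ∈ KK L hL) ∧ (∀ i, ∃ A : ℝ, ∀ᶠ n in (UU : Filter ℕ), (t i n : ℝ) ≤ A * L n) ∧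
      ∀ᶠ n in (UU : Filter ℕ), |x - (((z n : ℚ) / (b : ℚ) ^ h n +
        ∑ i, c i n / (b : ℚ) ^ t i n : ℚ) : ℝ)| ≤ Real.exp (-(E * L n))) :
    RepV B hL V x := by
  classical
  have hb0 : (0 : ℝ) < b := by positivity
  set w : Bool → GG := fun j => if j then gm (fun n => (z n : ℚ) / (b : ℚ) ^ h n) else 1 with hw
  have hsint : ∀ j, Sint B L (w j) := by
    intro j
    cases j
    · have := Sint.alg (B := B) (L := L) (hL := hL) 1
      simpa [hw] using this
    · simp only [hw, if_true]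
      exact block_sint hL e hbe hH hh
  have hplace : ∀ (v : Option (Fin m)) (j : Bool), ∃ t : ℝ, w j ∈ Sv B L v t := by
    intro v j
    cases v with
    | some i => exact (hsint j).fin i
    | none =>
      cases j
      · refine ⟨0, ?_⟩
        have := (filt_v (B := B) hL none).alg_mem (1 : KK L hL)
        rw [map_one] at this
        simpa [hw] using this
      · refine ⟨0, ?_⟩
        simp only [hw, if_true]
        unfold Sv
        rw [mem_SS]
        intro ε hε
        filter_upwards [L_nonneg hL] with n h1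
        simp only [Rv, Rinf]
        push_cast
        have h2 : |(z n : ℝ)| ≤ (b : ℝ) ^ h n := by exact_mod_cast hz n
        rw [abs_div, abs_of_pos (by positivity : (0 : ℝ) < (b : ℝ) ^ h n)]
        have h3 : |(z n : ℝ)| / (b : ℝ) ^ h n ≤ 1 := by
          rw [div_le_one (by positivity)]; exact h2
        refine h3.trans (Real.one_le_exp ?_)
        have : 0 ≤ ε * L n := by positivity
        linarith
  choose tt htt using hplace
  set C : ℝ := ∑ v, ∑ j, |tt v j| with hC
  refine ⟨Bool, inferInstance, w, C, fun v j => ?_, hsint, fun E => ?_⟩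
  · refine (filt_v (B := B) hL v).anti ?_ (htt v j)
    have h1 : |tt v j| ≤ ∑ j, |tt v j| :=
      Finset.single_le_sum (f := fun j => |tt v j|) (fun _ _ => abs_nonneg _) (Finset.mem_univ j)
    have h2 : ∑ j, |tt v j| ≤ C := Finset.single_le_sum (f := fun v => ∑ j, |tt v j|)
      (fun _ _ => Finset.sum_nonneg fun _ _ => abs_nonneg _) (Finset.mem_univ v)
    have h3 := neg_abs_le (tt v j)
    linarith
  · obtain ⟨r, c, t, hc, ht, hE'⟩ := hE E
    have k2 : Cb B hL V w (gm (fun n => (z n : ℚ) / (b : ℚ) ^ h n)) := by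
      have := Cb.gen (B := B) (hL := hL) (V := V) (w := w) true
      simpa [hw] using this
    have k3 : ∀ i : Fin r, Cb B hL V w (gm (fun n => c i n / (b : ℚ) ^ t i n)) := by
      intro i
      obtain ⟨A, hA⟩ := ht i
      obtain ⟨τ, _, _, hτ⟩ := exists_st (L := L) hL (a := fun n => (t i n : ℝ)) (A := A) (by
        filter_upwards [hA] with n hn using ⟨by positivity, hn⟩)
      obtain ⟨κ, g, hg, hκ⟩ := pow_const (B := B) (hL := hL) (V := V) e hbe hV hτ
      have e1 : gm (fun n => c i n / (b : ℚ) ^ t i n) =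
          (((⟨gm (c i), hc i⟩ : KK L hL) * κ : KK L hL) : GG) * ch B hL g * w false := by
        have e1 : gm (fun n => c i n / (b : ℚ) ^ t i n) =
            gm (c i) * gm (fun n => 1 / (b : ℚ) ^ t i n) := by
          rw [gm_mul]; congr 1; funext n; ring
        rw [e1, hκ]
        simp [hw, mul_assoc]
      rw [e1]
      exact (Cb.gen (B := B) (hL := hL) (V := V) (w := w) false).mul _ hg
    have k4 := k2.add (Cb.sum (B := B) (hL := hL) (V := V) (w := w) Finset.univ _ fun i _ => k3 i)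
    have hsum : ∀ (T : Finset (Fin r)), ∑ i ∈ T, gm (fun n => c i n / (b : ℚ) ^ t i n) =
        gm (fun n => ∑ i ∈ T, c i n / (b : ℚ) ^ t i n) := by
      intro T
      induction T using Finset.induction_on with
      | empty => simp [← gm_zero]
      | insert a T ha ih =>
        rw [Finset.sum_insert ha, ih, gm_add]
        congr 1
        funext n
        rw [Finset.sum_insert ha]
    rw [hsum, gm_add] at k4
    obtain ⟨P', hP1', hP2'⟩ := k4
    exact ⟨P', _, hP1', hP2', hE'⟩

end Pool.Agent.U55.PB
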