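import Mathlib
import Pool.Agent.U55.PB.Rep
import Pool.Agent.U55.PB.Piece

set_option autoImplicit false
set_option linter.unusedSectionVars false

/-!
# Digits which are cut into few stretches with linear recurrences of small order
-/

namespace Pool.Agent.U55.PB

open Filter Topology Pool.Agent.TH932.Abs Pool.Agent.TH932.Germs Pool.Agent.TH932.Chi
open Pool.Agent.TH932.Words Pool.Agent.TH932.Scale Pool.Agent.TH796.AL Finset
open Pool.Agent.R473.TB (Zd Zd_abs Zd_eq V_split V_abs)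

/-- sums of `R` terms -/
def TS (b T A R : ℕ) (y : ℝ) : Prop := ∃ (p d : Fin R → ℤ) (t : Fin R → ℕ),
  (∀ j, |p j| ≤ (b : ℤ) ^ T ∧ d j ≠ 0 ∧ |d j| ≤ (b : ℤ) ^ T ∧ t j ≤ A) ∧
  y = ∑ j, (p j : ℝ) / d j / (b : ℝ) ^ t j

lemma TS.add {b T A R R' : ℕ} {y y' : ℝ} (h : TS b T A R y) (h' : TS b T A R' y') :
    TS b T A (R + R') (y + y') := by
  obtain ⟨p, d, t, h1, h2⟩ := h
  obtain ⟨p', d', t', h1', h2'⟩ := h'
  refine ⟨Fin.append p p', Fin.append d d', Fin.append t t', fun j => ?_, ?_⟩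
  · induction j using Fin.addCases with
    | left j => simpa only [Fin.append_left] using h1 j
    | right j => simpa only [Fin.append_right] using h1' j
  · rw [Fin.sum_univ_add, h2, h2']
    simp only [Fin.append_left, Fin.append_right]

lemma TS.zero {b : ℕ} (hb : 2 ≤ b) (T A R : ℕ) : TS b T A R 0 := by
  have hbz1 : (1 : ℤ) ≤ b := by exact_mod_cast (by omega : 1 ≤ b)
  refine ⟨fun _ => 0, fun _ => 1, fun _ => 0, fun j => ⟨?_, one_ne_zero, ?_, Nat.zero_le _⟩, ?_⟩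
  · rw [abs_zero]; positivity
  · rw [abs_one]; exact one_le_pow₀ hbz1
  · simp

lemma TS.mono {b : ℕ} (hb : 2 ≤ b) {T A R R' : ℕ} (hR : R ≤ R') {y : ℝ} (h : TS b T A R y) :
    TS b T A R' y := by
  obtain ⟨k, rfl⟩ : ∃ k, R' = R + k := ⟨R' - R, by omega⟩
  have := h.add (TS.zero hb T A k)
  rwa [add_zero] at this

lemma TS.single {b T A : ℕ} {p d : ℤ} {t : ℕ} (h1 : |p| ≤ (b : ℤ) ^ T) (h2 : d ≠ 0)
    (h3 : |d| ≤ (b : ℤ) ^ T) (h4 : t ≤ A) : TS b T A 1 ((p : ℝ) / d / (b : ℝ) ^ t) :=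
  ⟨fun _ => p, fun _ => d, fun _ => t, fun _ => ⟨h1, h2, h3, h4⟩, by simp⟩

/-- cutting -/
lemma cut {b : ℕ} (hb : 2 ≤ b) (D : ℕ → ℤ) (hD : ∀ k, |D k| ≤ (b : ℤ) - 1) (m A : ℕ)
    (S : Finset ℕ) (r : ℕ) : ∀ N : ℕ, N ≤ A → (S.filter fun k => N ≤ k ∧ k < A).card ≤ r →
    (∀ u v, N ≤ u → u ≤ v → v ≤ A → (∀ i ∈ S, i < u ∨ v ≤ i) → Rec D m u v) →
    TS b (TT m) A (3 * r + 2) (∑ k ∈ Ico N A, (D k : ℝ) / (b : ℝ) ^ (k + 1)) := by
  have hbz1 : (1 : ℤ) ≤ b := by exact_mod_cast (by omega : 1 ≤ b)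
  have hpiece : ∀ u v, u ≤ v → v ≤ A → Rec D m u v →
      TS b (TT m) A 2 (∑ k ∈ Ico u v, (D k : ℝ) / (b : ℝ) ^ (k + 1)) := by
    intro u v huv hv hrec
    obtain ⟨p, q, d, hd0, hd, hp, hq, h⟩ := piece hb D hD m u v huv hrec
    rw [h]
    exact (TS.single hp hd0 hd (by omega)).add (TS.single hq hd0 hd hv)
  induction r with
  | zero =>
    intro N hN hS hrec
    have h0 := Finset.card_eq_zero.1 (Nat.le_zero.1 hS)
    refine hpiece N A hN le_rfl (hrec N A le_rfl hN le_rfl fun i hi => ?_)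
    by_contra hcon
    push Not at hcon
    have : i ∈ S.filter fun k => N ≤ k ∧ k < A := mem_filter.2 ⟨hi, hcon.1, hcon.2⟩
    rw [h0] at this
    exact absurd this (notMem_empty i)
  | succ r ih =>
    intro N hN hS hrec
    rcases (S.filter fun k => N ≤ k ∧ k < A).eq_empty_or_nonempty with h0 | hne
    · refine TS.mono hb (by omega) (hpiece N A hN le_rfl (hrec N A le_rfl hN le_rfl fun i hi => ?_))
      by_contra hcon
      push Not at hcon
      have : i ∈ S.filter fun k => N ≤ k ∧ k < A := mem_filter.2 ⟨hi, hcon.1, hcon.2⟩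
      rw [h0] at this
      exact absurd this (notMem_empty i)
    · obtain ⟨s, hs⟩ : ∃ s, s = (S.filter fun k => N ≤ k ∧ k < A).min' hne := ⟨_, rfl⟩
      have hsm := (S.filter fun k => N ≤ k ∧ k < A).min'_mem hne
      rw [← hs, mem_filter] at hsm
      have hmin : ∀ i ∈ S, N ≤ i → i < A → s ≤ i := fun i hi h1 h2 => by
        rw [hs]
        exact Finset.min'_le _ _ (mem_filter.2 ⟨hi, h1, h2⟩)
      have h1 := hpiece N s hsm.2.1 hsm.2.2.le (hrec N s le_rfl hsm.2.1 hsm.2.2.le fun i hi => by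
        by_contra hcon
        push Not at hcon
        have := hmin i hi hcon.1 (by omega)
        omega)
      have h2 : TS b (TT m) A 1 ((D s : ℝ) / (b : ℤ) / (b : ℝ) ^ s) := by
        refine TS.single ?_ (by omega) ?_ hsm.2.2.le
        · refine (hD s).trans ?_
          have : (b : ℤ) ^ 1 ≤ (b : ℤ) ^ TT m := pow_le_pow_right₀ hbz1 (by rw [TT]; omega)
          rw [pow_one] at this
          linarith
        · rw [abs_of_nonneg (by positivity)]
          have : (b : ℤ) ^ 1 ≤ (b : ℤ) ^ TT m := pow_le_pow_right₀ hbz1 (by rw [TT]; omega)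
          rwa [pow_one] at this
      have h3 := ih (s + 1) (by omega) (by
        have hsub : (S.filter fun k => s + 1 ≤ k ∧ k < A) ⊆
            (S.filter fun k => N ≤ k ∧ k < A).erase s := by
          intro i hi
          rw [mem_filter] at hi
          rw [mem_erase, mem_filter]
          exact ⟨by omega, hi.1, by omega, hi.2.2⟩
        have hc := card_le_card hsub
        rw [card_erase_of_mem (mem_filter.2 hsm)] at hc
        omega) (fun u v hu huv hv hE => hrec u v (by omega) huv hv hE)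
      have h4 := (h1.add h2).add h3
      have e : ∑ k ∈ Ico N A, (D k : ℝ) / (b : ℝ) ^ (k + 1) =
          ∑ k ∈ Ico N s, (D k : ℝ) / (b : ℝ) ^ (k + 1) + (D s : ℝ) / (b : ℤ) / (b : ℝ) ^ s +
          ∑ k ∈ Ico (s + 1) A, (D k : ℝ) / (b : ℝ) ^ (k + 1) := by
        rw [← sum_Ico_consecutive _ hsm.2.1 hsm.2.2.le, sum_eq_sum_Ico_succ_bot hsm.2.2]
        have hb0 : (b : ℝ) ≠ 0 := by positivity
        rw [pow_succ]
        push_cast
        have e2 : (D s : ℝ) / ((b : ℝ) ^ s * b) = (D s : ℝ) / b / (b : ℝ) ^ s := by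
          rw [div_div, mul_comm]
        rw [e2]
        ring
      rw [e]
      exact TS.mono hb (by omega) h4

variable {m : ℕ} {B : Base m} {V : Submodule ℝ (Fin m → ℝ)}

lemma mem_KK {L : ℕ → ℝ} (hL : Tendsto L atTop atTop) {b : ℕ} (hb : 2 ≤ b) {p d : ℕ → ℤ}
    {T : ℕ → ℕ} (hT : near L (fun n => (T n : ℝ)) 0)
    (hp : ∀ n, |p n| ≤ (b : ℤ) ^ T n) (hd : ∀ n, |d n| ≤ (b : ℤ) ^ T n) (hd0 : ∀ n, d n ≠ 0) :
    gm (fun n => (p n : ℚ) / d n) ∈ KK L hL := by
  have hb0 : (0 : ℝ) < b := by positivity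
  have hb1 : (1 : ℝ) ≤ b := by exact_mod_cast (by omega : 1 ≤ b)
  have negl : ∀ p : ℕ → ℤ, (∀ n, |p n| ≤ (b : ℤ) ^ T n) → Negl L p := by
    intro p hp
    apply negl_of_le hL (M := b) hb1 hT one_pos
    refine Eventually.of_forall fun n => ?_
    have h1 : |(p n : ℝ)| ≤ (b : ℝ) ^ T n := by exact_mod_cast hp n
    rw [one_mul]
    refine h1.trans (le_of_eq ?_)
    rw [← Real.rpow_natCast, Real.rpow_def_of_pos hb0]
  exact ⟨p, d, negl p hp, negl d hd, Eventually.of_forall hd0, rfl⟩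

lemma const_mem_KK {L : ℕ → ℝ} (hL : Tendsto L atTop atTop) (c : ℤ) :
    gm (fun _ => (c : ℚ)) ∈ KK L hL := by
  obtain ⟨t, ht⟩ : ∃ t : ℕ, |c| + 1 ≤ (2 : ℤ) ^ t := ⟨c.natAbs, by
    have h1 := two_mul_le_pow (le_refl 2) c.natAbs
    have h2 : ((c.natAbs : ℕ) : ℤ) = |c| := Int.natCast_natAbs c
    rw [h2] at h1
    exact_mod_cast h1⟩
  have h1 := mem_KK hL (le_refl 2) (p := fun _ => c) (d := fun _ => 1) (T := fun _ => t)
    (near_const hL _) (fun n => by push_cast; linarith)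
    (fun n => by
      rw [abs_one]
      have := abs_nonneg c
      push_cast
      linarith) (fun n => one_ne_zero)
  simpa using h1

/-- **Few stretches with linear recurrences of small order.** -/
theorem rep_pieces {N : ℕ → ℕ} (hL : Tendsto (fun n => (N n : ℝ)) atTop atTop) {b : ℕ}
    (hb : 2 ≤ b) (e : Fin m → ℕ) (hbe : b = ∏ i, B.P i ^ e i) (hV : (fun i => (e i : ℝ)) ∈ V)
    {x : ℝ} (c0 : ℤ) (D : ℕ → ℤ) (hD : ∀ k, |D k| ≤ (b : ℤ) - 1)
    (hx : x = c0 + Pool.Agent.R473.TB.V b D) (ms : ℕ → ℕ)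
    (hm : near (fun n => (N n : ℝ)) (fun n => (ms n : ℝ)) 0) (S : ℕ → Finset ℕ)
    (hS : ∀ i : ℕ, ∃ r : ℕ, ∀ᶠ n in (UU : Filter ℕ),
      ((S n).filter fun k => N n ≤ k ∧ k < 2 ^ i * N n).card ≤ r ∧
      ∀ u v, N n ≤ u → u ≤ v → v ≤ 2 ^ i * N n → (∀ k ∈ S n, k < u ∨ v ≤ k) →
        Rec D (ms n) u v) : RepV B hL V x := by
  classical
  have hb0 : (0 : ℝ) < b := by positivity
  have hb1 : (1 : ℝ) < b := by exact_mod_cast (by omega : 1 < b)
  have hlb : 0 < Real.log b := Real.log_pos hb1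
  have hD' : ∀ k, |D k| ≤ (b : ℤ) := fun k => (hD k).trans (by linarith)
  refine rep_terms hL hb e hbe hV (fun n => Zd b D (N n)) N (H := 1) zero_le_one
    (fun n => (Zd_abs hb hD (N n)).trans (by linarith)) (fun n => by rw [one_mul]) fun E => ?_
  obtain ⟨i, hi⟩ : ∃ i : ℕ, |E| + 2 ≤ 2 ^ i * Real.log b := by
    obtain ⟨i, hi⟩ := pow_unbounded_of_one_lt ((|E| + 2) / Real.log b) (one_lt_two (α := ℝ))
    refine ⟨i, ?_⟩
    rw [div_lt_iff₀ hlb] at hi
    exact hi.le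
  obtain ⟨r, hr⟩ := hS i
  -- the terms
  have hterms : ∀ n, ∃ (p d : Fin (3 * r + 2) → ℤ) (t : Fin (3 * r + 2) → ℕ),
      (∀ j, |p j| ≤ (b : ℤ) ^ TT (ms n) ∧ d j ≠ 0 ∧ |d j| ≤ (b : ℤ) ^ TT (ms n) ∧
        t j ≤ 2 ^ i * N n) ∧
      ((((S n).filter fun k => N n ≤ k ∧ k < 2 ^ i * N n).card ≤ r ∧
      ∀ u v, N n ≤ u → u ≤ v → v ≤ 2 ^ i * N n → (∀ k ∈ S n, k < u ∨ v ≤ k) →
        Rec D (ms n) u v) → ∑ k ∈ Ico (N n) (2 ^ i * N n), (D k : ℝ) / (b : ℝ) ^ (k + 1) =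
        ∑ j, (p j : ℝ) / d j / (b : ℝ) ^ t j) := by
    intro n
    by_cases hgood : (((S n).filter fun k => N n ≤ k ∧ k < 2 ^ i * N n).card ≤ r ∧
      ∀ u v, N n ≤ u → u ≤ v → v ≤ 2 ^ i * N n → (∀ k ∈ S n, k < u ∨ v ≤ k) →
        Rec D (ms n) u v)
    · obtain ⟨p, d, t, h1, h2⟩ := cut hb D hD (ms n) (2 ^ i * N n) (S n) r (N n)
        (Nat.le_mul_of_pos_left _ (by positivity)) hgood.1 hgood.2
      exact ⟨p, d, t, h1, fun _ => h2⟩
    · obtain ⟨p, d, t, h1, _⟩ := TS.zero hb (TT (ms n)) (2 ^ i * N n) (3 * r + 2)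
      exact ⟨p, d, t, h1, fun h => absurd h hgood⟩
  choose p d t h1 h2 using hterms
  have hT : near (fun n => (N n : ℝ)) (fun n => ((TT (ms n) : ℕ) : ℝ)) 0 := by
    have h3 := (hm.const_mul hL 8).add (near_const hL 20)
    simp only [mul_zero, add_zero] at h3
    refine h3.congr (Eventually.of_forall fun n => ?_)
    rw [TT]
    push_cast
    ring
  refine ⟨3 * r + 2 + 1, Fin.cons (fun _ => (c0 : ℚ)) fun j n => (p n j : ℚ) / d n j,
    Fin.cons (fun _ => 0) fun j n => t n j, fun j => ?_, fun j => ?_, ?_⟩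
  · induction j using Fin.cases with
    | zero => rw [Fin.cons_zero]; exact const_mem_KK hL _
    | succ j =>
      rw [Fin.cons_succ]
      exact mem_KK hL hb hT (fun n => (h1 n j).1) (fun n => (h1 n j).2.2.1) fun n => (h1 n j).2.1
  · induction j using Fin.cases with
    | zero =>
      refine ⟨0, Eventually.of_forall fun n => ?_⟩
      rw [Fin.cons_zero]; simp
    | succ j =>
      rw [Fin.cons_succ]
      refine ⟨2 ^ i, Eventually.of_forall fun n => ?_⟩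
      exact_mod_cast (h1 n j).2.2.2
  · filter_upwards [hr, ev_of_atTop (hL.eventually_ge_atTop 1)] with n hg hn1
    have h3 := h2 n hg
    have h4 : N n ≤ 2 ^ i * N n := Nat.le_mul_of_pos_left _ (by positivity)
    have h5 := V_split hb hD' (2 ^ i * N n)
    have h7 := V_abs hb (e := fun k => D (2 ^ i * N n + k)) fun k => hD' _
    have e0 : ∑ k ∈ range (2 ^ i * N n), (D k : ℝ) / (b : ℝ) ^ (k + 1) =
        (Zd b D (N n) : ℝ) / (b : ℝ) ^ N n +
        ∑ j, (p n j : ℝ) / d n j / (b : ℝ) ^ t n j := by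
      rw [← h3, Zd_eq hb, range_eq_Ico, range_eq_Ico,
        sum_Ico_consecutive _ (Nat.zero_le _) h4]
    have e1 : ((((Zd b D (N n) : ℤ) : ℚ) / (b : ℚ) ^ N n + ∑ j : Fin (3 * r + 2 + 1),
        (Fin.cons (fun _ => (c0 : ℚ)) (fun j n => (p n j : ℚ) / d n j) :
            Fin (3 * r + 2 + 1) → ℕ → ℚ) j n / (b : ℚ) ^ ((Fin.cons (fun _ => 0)
            (fun j n => t n j) : Fin (3 * r + 2 + 1) → ℕ → ℕ) j n) : ℚ) : ℝ) =
        (Zd b D (N n) : ℝ) / (b : ℝ) ^ N n + (c0 +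
          ∑ j, (p n j : ℝ) / d n j / (b : ℝ) ^ t n j) := by
      rw [Fin.sum_univ_succ]
      simp only [Fin.cons_zero, Fin.cons_succ]
      push_cast
      simp
    have e2 : x - ((Zd b D (N n) : ℝ) / (b : ℝ) ^ N n + (c0 +
          ∑ j, (p n j : ℝ) / d n j / (b : ℝ) ^ t n j)) =
        Pool.Agent.R473.TB.V b (fun k => D (2 ^ i * N n + k)) / (b : ℝ) ^ (2 ^ i * N n) := by
      rw [hx, h5, e0]
      ring
    rw [e1, e2, abs_div, abs_of_pos (by positivity : (0 : ℝ) < (b : ℝ) ^ (2 ^ i * N n))]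
    have h10 : (b : ℝ) ^ (2 ^ i * N n) = Real.exp (2 ^ i * Real.log b * N n) := by
      rw [← Real.rpow_natCast, Real.rpow_def_of_pos hb0]
      push_cast
      ring_nf
    rw [div_le_iff₀ (by positivity), h10, ← Real.exp_add]
    refine h7.trans ?_
    have h11 : (2 : ℝ) * N n ≤ -(E * N n) + 2 ^ i * Real.log b * N n := by
      have a1 : (|E| + 2) * (N n : ℝ) ≤ 2 ^ i * Real.log b * N n := by gcongr
      have a2 : E * (N n : ℝ) ≤ |E| * N n := by
        have := le_abs_self E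
        gcongr
      linarith
    have h12 : (2 : ℝ) ≤ Real.exp (2 * N n) := by
      have a1 := Real.add_one_le_exp (2 * (N n : ℝ))
      linarith
    exact h12.trans (Real.exp_le_exp.2 h11)

end Pool.Agent.U55.PB
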