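import Mathlib
import Pool.Agent.U55.PB.Terms
import Pool.Agent.TH796.Fin.Fin8

set_option autoImplicit false
set_option linter.unusedSectionVars false

/-!
# The fields generated by the numbers whose digits are cut into few simple stretches
-/

namespace Pool.Agent.U55.PB

open Filter Topology Pool.Agent.TH932.Abs Pool.Agent.TH932.Germs Pool.Agent.TH932.Chi
open Pool.Agent.TH932.Words Pool.Agent.TH932.Scale Pool.Agent.TH796.AL Finset
open Pool.Agent.TH796.AL.Ai Pool.Agent.TH796.AL.Grp Pool.Agent.TH796.AL.TwoB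
open Pool.Agent.TH796.AL.Alg Pool.Agent.TH796.AL.AlgA
open Pool.Agent.R473.TB (Zd Zd_abs Zd_eq V_split V_abs digit digit_mem digit_sum V_sub blocks
  dw_V cx_le)

/-- the first `M` terms of `D` are cut by at most `r` places into stretches which satisfy linear
recurrences of order `m` -/
def Cut (D : ℕ → ℤ) (M m r : ℕ) : Prop := ∃ S : Finset ℕ, S.card ≤ r ∧
  ∀ u v, u ≤ v → v ≤ M → (∀ k ∈ S, k < u ∨ v ≤ k) → Rec D m u v

/-- predictable along `S` in base `b` -/
def Pred (S : Set ℕ) (b : ℕ) (x : ℝ) : Prop := ∃ (w : ℕ → ℤ) (C θ : ℝ), θ < 1 ∧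
  (∀ k, 0 ≤ w k ∧ w k < b) ∧ (∀ n : ℕ, 1 ≤ n → (blocks w n : ℝ) ≤ C * n) ∧
  ∀ M ∈ S, ∃ m r : ℕ, (m : ℝ) ≤ C * (M : ℝ) ^ θ ∧ (r : ℝ) ≤ C * (1 + Real.log M) ∧
    Cut (fun k => digit b x k - w k) M m r

/-- words of linear complexity have representations -/
lemma repV_word {m : ℕ} (B : Base m) {b : ℕ} (hb : 2 ≤ b) (e : Fin m → ℕ)
    (hbe : b = ∏ i, B.P i ^ e i) (V : Submodule ℝ (Fin m → ℝ)) (hV : (fun i => (e i : ℝ)) ∈ V)
    (N : ℕ → ℕ) (hN : ∀ n, 2 ≤ N n) {w : ℕ → ℤ} (hw : ∀ k, 0 ≤ w k ∧ w k < b) {C : ℝ}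
    (hC : ∀ n : ℕ, 1 ≤ n → (blocks w n : ℝ) ≤ C * n)
    (hL : Tendsto (fun n => (N n : ℝ)) atTop atTop) :
    RepV B hL V (Pool.Agent.R473.TB.V b w) := by
  by_cases hirr : Irrational (Pool.Agent.R473.TB.V b w)
  · have hdz : Pool.Agent.TH796.AL.Final.dz b (Pool.Agent.R473.TB.V b w) =
        Pool.Agent.TH932.S2.dw b (Pool.Agent.R473.TB.V b w) := by
      funext k
      unfold Pool.Agent.TH796.AL.Final.dz Pool.Agent.TH932.S2.dw
      rw [mul_comm]
    refine repV_digits B hb e hbe V hV _ N hN C (fun n => ?_) hL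
    rw [hdz]
    have h1 := hC (N n) (by have := hN n; omega)
    refine le_trans ?_ h1
    exact_mod_cast cx_le hb hw hirr (N n)
  · obtain ⟨c, hc⟩ := not_not.1 hirr
    rw [← hc]
    exact repV_const B hL V c

/-- common scales -/
lemma scales_fin {ι : Type} [Fintype ι] {S : Set ℕ} (hS : S.Infinite) (b : ι → ℕ) (x : ι → ℝ)
    (w : ι → ℕ → ℤ) (C θ : ι → ℝ) (hθ : ∀ i, θ i < 1)
    (h : ∀ i, ∀ M ∈ S, ∃ m r : ℕ, (m : ℝ) ≤ C i * (M : ℝ) ^ θ i ∧
      (r : ℝ) ≤ C i * (1 + Real.log M) ∧ Cut (fun k => digit (b i) (x i) k - w i k) M m r) :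
    ∃ (N : ℕ → ℕ) (ms : ι → ℕ → ℕ) (Sn : ι → ℕ → Finset ℕ),
      (∀ n, 2 ≤ N n) ∧ (∀ n, n ≤ N n) ∧ (∀ i (n : ℕ), (n : ℝ) * ms i n ≤ |C i| * N n) ∧
      ∀ i, ∀ j : ℕ, ∃ r : ℕ, ∀ n, j ≤ n →
        ((Sn i n).filter fun k => N n ≤ k ∧ k < 2 ^ j * N n).card ≤ r ∧
        ∀ u v, N n ≤ u → u ≤ v → v ≤ 2 ^ j * N n → (∀ k ∈ Sn i n, k < u ∨ v ≤ k) →
          Rec (fun k => digit (b i) (x i) k - w i k) (ms i n) u v := by
  classical
  -- a common exponent
  obtain ⟨θ', hθ', hle⟩ : ∃ θ' : ℝ, θ' < 1 ∧ ∀ i, θ i ≤ θ' := by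
    rcases isEmpty_or_nonempty ι with hι | hι
    · exact ⟨0, one_pos, fun i => hι.elim i⟩
    · obtain ⟨i0, hi0⟩ := Finite.exists_max θ
      exact ⟨θ i0, hθ i0, hi0⟩
  set A : ℝ := 2 * ∑ i, |C i| with hA
  obtain ⟨c, hc⟩ := Pool.Agent.R473.TB.scales hθ' A
  choose M0 hM0 using hc
  have hM : ∀ n, ∃ M ∈ S, max (M0 n) 3 ≤ M := by
    intro n
    obtain ⟨M, h1, h2⟩ := hS.exists_gt (max (M0 n) 3)
    exact ⟨M, h1, h2.le⟩
  choose M hMS hMl using hM
  choose m r hm hr hcut using fun i n => h i (M n) (hMS n)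
  choose Sn hSc hSr using hcut
  set F : ℕ → ℕ → ℕ := fun n t => ∑ i, ((Sn i n).filter fun k => k < t).card with hF
  have hmono : ∀ n, Monotone (F n) := by
    intro n s t hst
    refine sum_le_sum fun i _ => card_le_card fun k hk => ?_
    rw [mem_filter] at hk ⊢
    exact ⟨hk.1, by omega⟩
  have hFM : ∀ n, (F n (M n) : ℝ) ≤ A * Real.log (M n) := by
    intro n
    have h3 : 3 ≤ M n := (le_max_right _ _).trans (hMl n)
    have h3R : (3 : ℝ) ≤ M n := by exact_mod_cast h3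
    have hlog : 1 ≤ Real.log (M n) := by
      rw [Real.le_log_iff_exp_le (by linarith)]
      have := Real.exp_one_lt_d9
      linarith
    rw [hF, hA]
    push_cast
    rw [mul_assoc, sum_mul, mul_sum]
    refine sum_le_sum fun i _ => ?_
    have h4 : (((Sn i n).filter fun k => k < M n).card : ℝ) ≤ r i n := by
      exact_mod_cast (card_le_card (filter_subset _ _)).trans (hSc i n)
    have h5 := hr i n
    have h6 : C i * (1 + Real.log (M n)) ≤ |C i| * (1 + Real.log (M n)) := by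
      have := le_abs_self (C i)
      gcongr
    have h7 := abs_nonneg (C i)
    nlinarith
  choose N hN1 hN2 hN3 hN4 hN5 using fun n => hM0 n (M n)
    ((le_max_left _ _).trans (hMl n)) (F n) (hFM n) (hmono n)
  refine ⟨N, m, Sn, hN2, hN1, fun i n => ?_, fun i j => ⟨c * j, fun n hjn => ⟨?_, ?_⟩⟩⟩
  · have h1 := hm i n
    have hM1 : (1 : ℝ) ≤ M n := by
      have h3 : 3 ≤ M n := (le_max_right _ _).trans (hMl n)
      exact_mod_cast (by omega : 1 ≤ M n)
    have h2 : C i * (M n : ℝ) ^ θ i ≤ |C i| * (M n : ℝ) ^ θ' := by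
      have h3 : (M n : ℝ) ^ θ i ≤ (M n : ℝ) ^ θ' := Real.rpow_le_rpow_of_exponent_le hM1 (hle i)
      have h4 := le_abs_self (C i)
      have h5 : 0 ≤ (M n : ℝ) ^ θ i := by positivity
      calc C i * (M n : ℝ) ^ θ i ≤ |C i| * (M n : ℝ) ^ θ i := by gcongr
        _ ≤ _ := by gcongr
    calc (n : ℝ) * m i n ≤ n * (|C i| * (M n : ℝ) ^ θ') := by gcongr; exact h1.trans h2
      _ = |C i| * (n * (M n : ℝ) ^ θ') := by ring
      _ ≤ |C i| * N n := by gcongr; exact hN4 n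
  · have h1 := hN5 n j hjn
    have h2 : N n ≤ 2 ^ j * N n := Nat.le_mul_of_pos_left _ (by positivity)
    have h3 : F n (2 ^ j * N n) = F n (N n) +
        ∑ i, ((Sn i n).filter fun k => N n ≤ k ∧ k < 2 ^ j * N n).card := by
      rw [hF]
      simp only []
      rw [← sum_add_distrib]
      refine sum_congr rfl fun i _ => ?_
      rw [← card_union_of_disjoint]
      · congr 1
        ext k
        simp only [mem_union, mem_filter]
        constructor
        · rintro ⟨h4, h5⟩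
          by_cases h6 : k < N n
          · exact Or.inl ⟨h4, h6⟩
          · exact Or.inr ⟨h4, by omega, h5⟩
        · rintro (⟨h4, h5⟩ | ⟨h4, h5, h6⟩)
          · exact ⟨h4, by omega⟩
          · exact ⟨h4, h6⟩
      · rw [disjoint_left]
        intro k h4 h5
        rw [mem_filter] at h4 h5
        omega
    have h4 : ((Sn i n).filter fun k => N n ≤ k ∧ k < 2 ^ j * N n).card ≤
        ∑ i, ((Sn i n).filter fun k => N n ≤ k ∧ k < 2 ^ j * N n).card :=
      single_le_sum (f := fun i => ((Sn i n).filter fun k => N n ≤ k ∧ k < 2 ^ j * N n).card)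
        (fun _ _ => Nat.zero_le _) (mem_univ i)
    omega
  · intro u v _ huv hv hk
    refine hSr i n u v huv ?_ hk
    have h5 : 2 ^ j * N n ≤ 2 ^ n * N n :=
      Nat.mul_le_mul_right _ (Nat.pow_le_pow_right (by norm_num) hjn)
    have := hN3 n
    omega

/-- **Common representations of finitely many predictable numbers.** -/
theorem common_rep {ι : Type} [Finite ι] {S : Set ℕ} (hS : S.Infinite) (Γ : ι → Subgroup ℚˣ)
    (b : ι → ℕ) (hb : ∀ i, 2 ≤ b i) (hΓ : ∀ i, ∃ u ∈ Γ i, ((u : ℚˣ) : ℚ) = b i) (x : ι → ℝ)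
    (hx : ∀ i, Pred S (b i) (x i)) :
    ∃ (m : ℕ) (B : Base m) (L : ℕ → ℝ) (hL : Tendsto L atTop atTop),
      ∀ i, RepV B hL (VS B (Γ i)) (x i) := by
  classical
  have := Fintype.ofFinite ι
  choose w C θ hθ hw hC h using hx
  obtain ⟨N, ms, Sn, hN2, hNn, hms, hSn⟩ := scales_fin hS b x w C θ hθ h
  have hT : Tendsto N atTop atTop := tendsto_atTop_mono hNn tendsto_id
  have hL : Tendsto (fun n => (N n : ℝ)) atTop atTop := tendsto_natCast_atTop_atTop.comp hT
  obtain ⟨e0, he0⟩ : ∃ e0 : Fin (Fintype.card ι) ≃ ι, True := ⟨(Fintype.equivFin ι).symm, trivial⟩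
  obtain ⟨m, B, hB⟩ := Fld.exists_base (fun j => b (e0 j)) fun j => hb _
  refine ⟨m, B, _, hL, fun i => ?_⟩
  obtain ⟨e, he⟩ := hB (e0.symm i)
  rw [Equiv.apply_symm_apply] at he
  have hV : (fun j => (e j : ℝ)) ∈ VS B (Γ i) := by
    obtain ⟨u, hu, hub⟩ := hΓ i
    refine Submodule.subset_span ⟨fun j => e j, by funext j; push_cast; rfl, u, hu, ?_⟩
    rw [hub, he]
    push_cast
    rfl
  have h1 := repV_word B (hb i) e he _ hV N hN2 (hw i) (hC i) hL
  have h2 : RepV B hL (VS B (Γ i)) (x i - Pool.Agent.R473.TB.V (b i) (w i)) := by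
    refine rep_pieces hL (hb i) e he hV ⌊x i⌋ (fun k => digit (b i) (x i) k - w i k) ?_ ?_
      (ms i) ?_ (Sn i) ?_
    · intro k
      have h1 := digit_mem (hb i) (x i) k
      have h2 := hw i k
      show |digit (b i) (x i) k - w i k| ≤ (b i : ℤ) - 1
      rw [abs_le]
      constructor <;> linarith [h1.1, h1.2, h2.1, h2.2]
    · rw [V_sub (hb i)]
      · have := digit_sum (hb i) (x i)
        linarith
      · intro k
        rw [abs_of_nonneg (digit_mem (hb i) (x i) k).1]; exact (digit_mem (hb i) (x i) k).2.le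
      · intro k
        rw [abs_of_nonneg (hw i k).1]; exact (hw i k).2.le
    · intro ε hε
      obtain ⟨n0, hn0⟩ := exists_nat_gt ((|C i| + 1) / ε)
      refine ev_of_atTop ?_
      filter_upwards [eventually_ge_atTop n0, eventually_ge_atTop 1] with n h1 h2
      show |((ms i n : ℕ) : ℝ) - 0 * (N n : ℝ)| ≤ ε * (N n : ℝ)
      rw [zero_mul, sub_zero, abs_of_nonneg (by positivity)]
      have h3 := hms i n
      have h4 : (n0 : ℝ) ≤ n := by exact_mod_cast h1
      have h5 : |C i| + 1 < ε * n := by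
        rw [div_lt_iff₀ hε] at hn0
        nlinarith
      have h7 : (0 : ℝ) < n := by
        have : (1 : ℝ) ≤ n := by exact_mod_cast h2
        linarith
      have h8 : (0 : ℝ) ≤ N n := Nat.cast_nonneg _
      have h9 : (n : ℝ) * ms i n ≤ n * (ε * N n) := by
        calc (n : ℝ) * ms i n ≤ |C i| * N n := h3
          _ ≤ (ε * n) * N n := by gcongr; linarith
          _ = _ := by ring
      exact le_of_mul_le_mul_left h9 h7
    · intro j
      obtain ⟨r, hr⟩ := hSn i j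
      exact ⟨r, ev_of_atTop ((eventually_ge_atTop j).mono fun n hn => hr n hn)⟩
  have h3 := repV_add h1 h2
  rwa [add_sub_cancel] at h3

/-- the field generated by the predictable numbers -/
noncomputable def PF (S A : Set ℕ) : Subfield ℝ :=
  Subfield.closure {x | ∃ b ∈ A, Pred S b x}

lemma mem_PF {S A : Set ℕ} {x : ℝ} (h : x ∈ PF S A) :
    ∃ p ∈ Algebra.adjoin ℚ {x | ∃ b ∈ A, Pred S b x},
      ∃ q ∈ Algebra.adjoin ℚ {x | ∃ b ∈ A, Pred S b x}, q ≠ 0 ∧ q * x = p := by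
  unfold PF at h
  rw [Subfield.mem_closure_iff] at h
  obtain ⟨y, hy, z, hz, h⟩ := h
  have hle : Subring.closure {x | ∃ b ∈ A, Pred S b x} ≤
      (Algebra.adjoin ℚ {x | ∃ b ∈ A, Pred S b x}).toSubring :=
    Subring.closure_le.2 Algebra.subset_adjoin
  by_cases hz0 : z = 0
  · refine ⟨0, Subalgebra.zero_mem _, 1, Subalgebra.one_mem _, one_ne_zero, ?_⟩
    rw [← h, hz0, div_zero, mul_zero]
  · exact ⟨y, hle hy, z, hle hz, hz0, by rw [← h]; field_simp⟩

theorem pface {ι : Type} [Finite ι] (A : ι → Set ℕ) (hA : ∀ i, ∀ b ∈ A i, 2 ≤ b) {S : Set ℕ}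
    (hS : S.Infinite) (y : ι → ℝ)
    (hy : ∀ i, y i ∈ Algebra.adjoin ℚ {x | ∃ b ∈ A i, Pred S b x}) :
    ∃ (m : ℕ) (B : Base m) (L : ℕ → ℝ) (hL : Tendsto L atTop atTop),
      ∀ i, RepV B hL (VS B (GA (A i))) (y i) := by
  classical
  have h0 : ∀ i, ∃ (k : ℕ) (f : Fin k → {x | ∃ b ∈ A i, Pred S b x}) (q : MvPolynomial (Fin k) ℚ),
      y i = MvPolynomial.aeval (fun j => (f j : ℝ)) q := by
    intro i
    have h1 := hy i
    have e1 : {x | ∃ b ∈ A i, Pred S b x} =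
        Set.range (Subtype.val : {x | ∃ b ∈ A i, Pred S b x} → ℝ) := Subtype.range_coe.symm
    rw [e1, Algebra.adjoin_range_eq_range_aeval] at h1
    obtain ⟨p, hp⟩ := h1
    obtain ⟨k, f, hf, q, rfl⟩ := MvPolynomial.exists_fin_rename p
    refine ⟨k, f, q, ?_⟩
    rw [← hp]
    change MvPolynomial.aeval _ _ = _
    rw [MvPolynomial.aeval_rename]
    rfl
  choose k f q hq using h0
  choose b hbA hpred using fun i (j : Fin (k i)) => (f i j).2
  obtain ⟨m, B, L, hL, hrep⟩ := common_rep (ι := Σ i, Fin (k i)) hS (fun p => GA (A p.1))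
    (fun p => b p.1 p.2) (fun p => hA _ _ (hbA p.1 p.2))
    (fun p => mem_GA (hA _ _ (hbA p.1 p.2)) (hbA p.1 p.2)) (fun p => (f p.1 p.2 : ℝ))
    (fun p => hpred p.1 p.2)
  refine ⟨m, B, L, hL, fun i => ?_⟩
  rw [hq i]
  exact ringv_thm m B _ hL _ (Fin (k i)) (fun j => (f i j : ℝ)) (fun j => hrep ⟨i, j⟩) (q i)

/-- simultaneous representation -/
theorem pfield {ι : Type} [Finite ι] (A : ι → Set ℕ) (hA : ∀ i, ∀ b ∈ A i, 2 ≤ b) {S : Set ℕ}
    (hS : S.Infinite) (x : ι → ℝ) (hx : ∀ i, x i ∈ PF S (A i)) :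
    ∃ (m : ℕ) (B : Base m) (L : ℕ → ℝ) (hL : Tendsto L atTop atTop),
      ∀ i, x i ∈ FV B hL (VS B (GA (A i))) := by
  choose p hp q hq hq0 hqx using fun i => mem_PF (hx i)
  obtain ⟨m, B, L, hL, h⟩ := pface (ι := ι ⊕ ι) (Sum.elim A A) (by
    rintro (i | i)
    · exact hA i
    · exact hA i) hS (Sum.elim p q) (by
    rintro (i | i)
    · exact hp i
    · exact hq i)
  refine ⟨m, B, L, hL, fun i => ?_⟩
  have h1 : p i ∈ FV B hL (VS B (GA (A i))) := Subfield.subset_closure (h (Sum.inl i))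
  have h2 : q i ∈ FV B hL (VS B (GA (A i))) := Subfield.subset_closure (h (Sum.inr i))
  have e1 : x i = p i / q i := by
    rw [← hqx i, mul_div_cancel_left₀ _ (hq0 i)]
  rw [e1]
  exact (FV B hL _).div_mem h1 h2

theorem pfieldAlg {ι : Type} [Finite ι] (A : ι → Set ℕ) (hA : ∀ i, ∀ b ∈ A i, 2 ≤ b) {S : Set ℕ}
    (hS : S.Infinite) (x : ι → ℝ) (hx : ∀ i, IsAlgebraic (PF S (A i)) (x i)) :
    ∃ (m : ℕ) (B : Base m) (L : ℕ → ℝ) (hL : Tendsto L atTop atTop),
      ∀ i, IsAlgebraic (FV B hL (VS B (GA (A i)))) (x i) := by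
  choose p hp0 hp using hx
  obtain ⟨m, B, L, hL, h⟩ := pfield (ι := Σ i, Fin ((p i).natDegree + 1)) (fun k => A k.1)
    (fun k => hA k.1) hS (fun k => ((p k.1).coeff k.2 : ℝ)) (fun k => ((p k.1).coeff k.2).2)
  exact ⟨m, B, L, hL, fun i => change_field (p i) (hp0 i) (hp i) fun j => h ⟨i, j⟩⟩

/-- **Irrational elements of the field are transcendental.** -/
theorem transc_PF {S A : Set ℕ} (hA : ∀ b ∈ A, 2 ≤ b) (hS : S.Infinite) {x : ℝ}
    (hx : x ∈ PF S A) (hirr : Irrational x) : Transcendental ℚ x := by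
  obtain ⟨m, B, L, hL, h1⟩ := pfield (fun _ : Unit => A) (fun _ => hA) hS (fun _ => x) (fun _ => hx)
  exact transc (h1 ()) hirr

/-- **Numbers with a transcendence measure are algebraic over at most one of the fields.** -/
theorem meas_PF {A A' : Set ℕ} (hA : ∀ b ∈ A, 2 ≤ b) (hA' : ∀ b ∈ A', 2 ≤ b)
    (h : GA A ⊓ GA A' = ⊥) {S : Set ℕ} (hS : S.Infinite) {z : ℝ}
    (hz : Transcendental ℚ z) (hU : ¬ UNumber z)
    (h1 : IsAlgebraic (PF S A) z) (h2 : IsAlgebraic (PF S A') z) : False := by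
  have hΓ := gindep_pair h
  obtain ⟨m, B, L, hL, h3⟩ := pfieldAlg ![A, A'] (by
    intro i
    fin_cases i
    · exact hA
    · exact hA') hS ![z, z] (by
      intro i
      fin_cases i
      · exact h1
      · exact h2)
  have h4 : ∀ i : Fin 2, IsAlgebraic (FV B hL (VS B (![GA A, GA A'] i))) z := by
    intro i
    fin_cases i
    · exact h3 0
    · exact h3 1
  have hdep : ¬ AlgebraicIndependent ℚ ![z, z] := fun hd => by
    have h6 := hd.injective (a₁ := 0) (a₂ := 1) rfl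
    exact absurd h6 (by decide)
  apply hdep
  refine toQ (R := RG hL B) ![z, z] (kst hL) ?_
  refine fam_indep 2 (fun i => UF B hL (VS B (![GA A, GA A'] i)))
    (fun k => UF B hL (⨆ j : Fin 2, ⨆ (_ : j ≠ k), VS B (![GA A, GA A'] j))) (fun k => ?_)
    (fun j k hjk => ?_) (fun i => kst hL (![z, z] i)) (fun i => ?_) (fun i hi => ?_)
  · exact ld (vindep B hΓ k).symm
  · exact UF_mono (le_iSup₂_of_le j hjk.ne le_rfl)
  · have e : ![z, z] i = z := by fin_cases i <;> rfl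
    rw [e]
    exact alg_kst (h4 i)
  · have e : ![z, z] i = z := by fin_cases i <;> rfl
    rw [e] at hi
    exact hU (unumber_of_alg hz hi)

lemma free_PF {S : Set ℕ} (hS : S.Infinite) {A : Set ℕ} (hA : ∀ b ∈ A, 2 ≤ b) {z : ℝ}
    (h : Transcendental (PF S A) z) : Alg.Free (PF S A) z := by
  refine ⟨h, fun x hx hxz hxK => ?_⟩
  exact h (alg_field hxK (alg_exchange (transc_PF hA hS hxK hx) hxz))

/-- **At most one exceptional class of bases.** -/
theorem class_PF {z : ℝ} (hz : Transcendental ℚ z) (hU : ¬ Ai.UNumber z) {S : Set ℕ}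
    (hS : S.Infinite) : ∃ c : ℕ, 2 ≤ c ∧ ∀ b : ℕ, 2 ≤ b → Indep b c →
      Alg.Free (PF S (Pool.Agent.TH796.Fin.cls b)) z := by
  by_cases hex : ∃ c : ℕ, 2 ≤ c ∧ IsAlgebraic (PF S (Pool.Agent.TH796.Fin.cls c)) z
  · obtain ⟨c, hc, hcz⟩ := hex
    refine ⟨c, hc, fun b hb hbc => free_PF hS (fun d hd => hd.1) fun h2 => ?_⟩
    exact meas_PF (fun d hd => hd.1) (fun d hd => hd.1) (Pool.Agent.TH796.Fin.cls_inf hb hc hbc) hS
      hz hU h2 hcz
  · push Not at hex
    exact ⟨2, le_rfl, fun b hb _ => free_PF hS (fun d hd => hd.1) (hex b hb)⟩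

lemma mem_PF_of {S A : Set ℕ} {b : ℕ} (hb : b ∈ A) {x : ℝ} (h : Pred S b x) : x ∈ PF S A :=
  Subfield.subset_closure ⟨b, hb, h⟩

end Pool.Agent.U55.PB
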