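import Mathlib
import Pool.Agent.U55.PB.Cls

set_option autoImplicit false

/-!
# Predicting the digits of algebraic numbers, and of numbers with a transcendence measure in two bases
-/

namespace Pool.Agent.U55.PB

open Filter Topology Finset
open Pool.Agent.TH796.AL Pool.Agent.TH796.AL.Alg Pool.Agent.TH796.AL.Ai Pool.Agent.TH796.AL.TwoB
open Pool.Agent.R473.TB (digit blocks)

lemma rec_mono_zero {D : ℕ → ℤ} {m m' u v : ℕ} (h : Rec D m u v) (hm : m ≤ m') :
    Rec D m' u v := by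
  obtain ⟨d, rfl⟩ : ∃ d, m' = m + d := ⟨m' - m, by omega⟩
  obtain ⟨c, hc⟩ := h
  refine ⟨fun l => if d ≤ l then c (l - d) else 0, fun i hi hiv => ?_⟩
  have h1 := hc (i + d) (by omega) (by omega)
  have e1 : i + (m + d) = i + d + m := by omega
  rw [e1, h1, add_comm m d, Finset.sum_range_add]
  have h2 : ∑ x ∈ range d, (if d ≤ x then c (x - d) else 0) * (D (i + x) : ℚ) = 0 := by
    refine sum_eq_zero fun x hx => ?_
    rw [mem_range] at hx
    rw [if_neg (by omega), zero_mul]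
  rw [h2, zero_add]
  refine sum_congr rfl fun x _ => ?_
  show c x * _ = (if d ≤ d + x then c (d + x - d) else 0) * _
  rw [if_pos (by omega), Nat.add_sub_cancel_left, add_assoc i d x]

/-- a word which is periodic on a stretch, except at its beginning -/
lemma rec_periodic {D : ℕ → ℤ} {a p u v : ℕ} (hp : 1 ≤ p)
    (h : ∀ i, a ≤ i → u + i + p < v → D (u + i + p) = D (u + i)) : Rec D (a + p) u v := by
  refine ⟨fun l => if l = a then 1 else 0, fun i hi hiv => ?_⟩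
  have h1 : ∑ l ∈ range (a + p), (if l = a then (1 : ℚ) else 0) * (D (i + l) : ℚ) = D (i + a) := by
    rw [sum_eq_single a]
    · simp
    · intro b _ hb
      simp [hb]
    · intro hb
      rw [mem_range] at hb
      omega
  rw [h1]
  have h2 := h (i + a - u) (by omega) (by omega)
  have e1 : u + (i + a - u) + p = i + (a + p) := by omega
  have e2 : u + (i + a - u) = i + a := by omega
  rw [e1, e2] at h2
  rw [h2]

/-- without errors an automaton is autonomous -/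
lemma st_eq {K : ℕ} (out : Fin K → ℤ) (step : Fin K → ℤ → Fin K) (s0 : Fin K) (D : ℕ → ℤ)
    (u v : ℕ) (hno : ∀ k, u ≤ k → k < v → out (Pool.Agent.R473.TB.st step s0 D k) = D k) (i : ℕ)
    (hi : u + i ≤ v) : Pool.Agent.R473.TB.st step s0 D (u + i) =
      (fun s => step s (out s))^[i] (Pool.Agent.R473.TB.st step s0 D u) := by
  induction i with
  | zero => rfl
  | succ i ih =>
    rw [Function.iterate_succ_apply', ← ih (by omega), ← add_assoc]
    change step _ (D (u + i)) = _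
    rw [hno (u + i) (by omega) (by omega)]

lemma rec_st {K : ℕ} (out : Fin K → ℤ) (step : Fin K → ℤ → Fin K) (s0 : Fin K) (D : ℕ → ℤ)
    (u v : ℕ) (hno : ∀ k, u ≤ k → k < v → out (Pool.Agent.R473.TB.st step s0 D k) = D k) :
    Rec D K u v := by
  obtain ⟨f, hf⟩ : ∃ f : Fin K → Fin K, f = fun σ => step σ (out σ) := ⟨_, rfl⟩
  obtain ⟨i, j, hij, hfij⟩ := Fintype.exists_ne_map_eq_of_card_lt
    (fun i : Fin (K + 1) => f^[(i : ℕ)] (Pool.Agent.R473.TB.st step s0 D u)) (by simp)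
  wlog hlt : (i : ℕ) < j with H
  · exact H out step s0 D u v hno f hf j i hij.symm hfij.symm (by
      have : (i : ℕ) ≠ j := fun h => hij (Fin.ext h)
      omega)
  obtain ⟨p, hp⟩ : ∃ p : ℕ, (j : ℕ) = i + p := ⟨j - i, by omega⟩
  have hfij' : f^[(i : ℕ)] (Pool.Agent.R473.TB.st step s0 D u) =
    f^[(j : ℕ)] (Pool.Agent.R473.TB.st step s0 D u) := hfij
  have hper : ∀ l, f^[(i : ℕ) + l + p] (Pool.Agent.R473.TB.st step s0 D u) =
      f^[(i : ℕ) + l] (Pool.Agent.R473.TB.st step s0 D u) := by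
    intro l
    have e1 : (i : ℕ) + l + p = l + (i + p) := by omega
    have e2 : (i : ℕ) + l = l + i := by omega
    rw [e1, e2, Function.iterate_add_apply, Function.iterate_add_apply f l i, ← hp, ← hfij']
  refine rec_mono_zero (m := i + p) (rec_periodic (by omega) fun l hl hlv => ?_)
    (by have := j.2; omega)
  obtain ⟨l', rfl⟩ : ∃ l', l = i + l' := ⟨l - i, by omega⟩
  have h1 := hno (u + ((i : ℕ) + l')) (by omega) (by omega)
  have h2 := hno (u + ((i : ℕ) + l') + p) (by omega) (by omega)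
  rw [st_eq out step s0 D u v hno _ (by omega)] at h1
  rw [add_assoc u, st_eq out step s0 D u v hno _ (by omega)] at h2
  rw [← hf] at h1 h2
  rw [hper l', h1] at h2
  rw [add_assoc u]
  exact h2.symm

/-- a predictor cuts a word -/
theorem cut_st {K : ℕ} (out : Fin K → ℤ) (step : Fin K → ℤ → Fin K) (s0 : Fin K) (D : ℕ → ℤ)
    (M : ℕ) : Cut D M K (Pool.Agent.R473.TB.errs out step s0 D M) := by
  refine ⟨(range M).filter fun k => out (Pool.Agent.R473.TB.st step s0 D k) ≠ D k, le_rfl,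
    fun u v huv hvM hk => rec_st out step s0 D u v fun k h1 h2 => ?_⟩
  by_contra hcon
  have h3 := hk k (mem_filter.2 ⟨mem_range.2 (by omega), hcon⟩)
  omega

/-- failure for infinitely many `M` gives predictability along an infinite set -/
lemma pred_of {b : ℕ} {x : ℝ} {w : ℕ → ℤ} {C θ A : ℝ} (hw : ∀ k, 0 ≤ w k ∧ w k < b)
    (hC : ∀ n : ℕ, 1 ≤ n → (blocks w n : ℝ) ≤ C * n) (hθ : θ < 1) {S : Set ℕ}
    (hS : ∀ M ∈ S, 1 ≤ M ∧ ∃ m r : ℕ, (m : ℝ) ≤ (M : ℝ) ^ θ ∧ (r : ℝ) ≤ A * Real.log M ∧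
      Cut (fun k => digit b x k - w k) M m r) : Pred S b x := by
  refine ⟨w, max C (max A 1), θ, hθ, hw, fun n hn => (hC n hn).trans ?_, fun M hM => ?_⟩
  · gcongr
    exact le_max_left _ _
  · obtain ⟨hM1, m, r, hm, hr, hcut⟩ := hS M hM
    have hM1R : (1 : ℝ) ≤ M := by exact_mod_cast hM1
    have hlog : 0 ≤ Real.log M := Real.log_nonneg hM1R
    refine ⟨m, r, ?_, ?_, hcut⟩
    · have h1 : (1 : ℝ) ≤ max C (max A 1) := (le_max_right _ _).trans (le_max_right _ _)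
      have h2 : 0 ≤ (M : ℝ) ^ θ := by positivity
      nlinarith
    · have h1 : (1 : ℝ) ≤ max C (max A 1) := (le_max_right _ _).trans (le_max_right _ _)
      have h2 : A ≤ max C (max A 1) := (le_max_left _ _).trans (le_max_right _ _)
      nlinarith

/-- **Algebraic numbers.** -/
theorem alg_main {x : ℝ} (hx : Irrational x) (hxa : IsAlgebraic ℚ x) {b : ℕ} (hb : 2 ≤ b)
    {w : ℕ → ℤ} {C θ : ℝ} (hw : ∀ k, 0 ≤ w k ∧ w k < b)
    (hC : ∀ n : ℕ, 1 ≤ n → (blocks w n : ℝ) ≤ C * n) (hθ : θ < 1) (A : ℝ) :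
    ∃ M0 : ℕ, ∀ M : ℕ, M0 ≤ M → ∀ m r : ℕ, (m : ℝ) ≤ (M : ℝ) ^ θ →
      Cut (fun k => digit b x k - w k) M m r → A * Real.log M < r := by
  by_contra hcon
  push Not at hcon
  set S : Set ℕ := {M : ℕ | 1 ≤ M ∧ ∃ m r : ℕ, (m : ℝ) ≤ (M : ℝ) ^ θ ∧
    (r : ℝ) ≤ A * Real.log M ∧ Cut (fun k => digit b x k - w k) M m r} with hSdef
  have hS : S.Infinite := by
    rw [Set.infinite_iff_exists_gt]
    intro n
    obtain ⟨M, hM, m, r, h1, h2, h3⟩ := hcon (n + 1)
    exact ⟨M, ⟨by omega, m, r, h1, h3, h2⟩, by omega⟩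
  have hP : Pred S b x := pred_of (A := A) hw hC hθ (fun M hM => hM)
  have h1 : x ∈ PF S {d | 2 ≤ d} := mem_PF_of hb hP
  exact transc_PF (fun d hd => hd) hS h1 hx hxa

/-- **Numbers with a transcendence measure, in two bases.** -/
theorem two_main {z : ℝ} (hz : Transcendental ℚ z) (hU : ¬ UNumber z) {x y : ℝ}
    (hx : Irrational x) (hy : Irrational y) (hxz : AlgOver z x) (hyz : AlgOver z y) {a b : ℕ}
    (ha : 2 ≤ a) (hb : 2 ≤ b) (hab : Indep a b) {u v : ℕ → ℤ} {C θ : ℝ}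
    (hu : ∀ k, 0 ≤ u k ∧ u k < a) (hv : ∀ k, 0 ≤ v k ∧ v k < b)
    (hCu : ∀ n : ℕ, 1 ≤ n → (blocks u n : ℝ) ≤ C * n)
    (hCv : ∀ n : ℕ, 1 ≤ n → (blocks v n : ℝ) ≤ C * n) (hθ : θ < 1) (A : ℝ) :
    ∃ M0 : ℕ, ∀ M : ℕ, M0 ≤ M → ∀ m m' r r' : ℕ, (m : ℝ) ≤ (M : ℝ) ^ θ → (m' : ℝ) ≤ (M : ℝ) ^ θ →
      Cut (fun k => digit a x k - u k) M m r → Cut (fun k => digit b y k - v k) M m' r' →
      A * Real.log M < r + r' := by
  by_contra hcon
  push Not at hcon
  set S : Set ℕ := {M : ℕ | 1 ≤ M ∧ ∃ m m' r r' : ℕ, (m : ℝ) ≤ (M : ℝ) ^ θ ∧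
    (m' : ℝ) ≤ (M : ℝ) ^ θ ∧ Cut (fun k => digit a x k - u k) M m r ∧
    Cut (fun k => digit b y k - v k) M m' r' ∧ (r : ℝ) + r' ≤ A * Real.log M} with hSdef
  have hS : S.Infinite := by
    rw [Set.infinite_iff_exists_gt]
    intro n
    obtain ⟨M, hM, m, m', r, r', h1, h2, h3, h4, h5⟩ := hcon (n + 1)
    exact ⟨M, ⟨by omega, m, m', r, r', h1, h2, h3, h4, h5⟩, by omega⟩
  have hPx : Pred S a x := by
    refine pred_of hu hCu hθ (A := A) fun M hM => ?_
    obtain ⟨h0, m, m', r, r', h1, h2, h3, h4, h5⟩ := hM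
    refine ⟨h0, m, r, h1, ?_, h3⟩
    have : (0 : ℝ) ≤ r' := Nat.cast_nonneg _
    linarith
  have hPy : Pred S b y := by
    refine pred_of hv hCv hθ (A := A) fun M hM => ?_
    obtain ⟨h0, m, m', r, r', h1, h2, h3, h4, h5⟩ := hM
    refine ⟨h0, m', r', h2, ?_, h4⟩
    have : (0 : ℝ) ≤ r := Nat.cast_nonneg _
    linarith
  have hxF : x ∈ PF S (Pool.Agent.TH796.Fin.cls a) :=
    mem_PF_of (show a ∈ Pool.Agent.TH796.Fin.cls a from
      ⟨ha, Pool.Agent.TH796.Fin.not_indep_self a⟩) hPx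
  have hyF : y ∈ PF S (Pool.Agent.TH796.Fin.cls b) :=
    mem_PF_of (show b ∈ Pool.Agent.TH796.Fin.cls b from
      ⟨hb, Pool.Agent.TH796.Fin.not_indep_self b⟩) hPy
  have h1 : IsAlgebraic (PF S (Pool.Agent.TH796.Fin.cls a)) z := by
    by_contra hcon
    exact (free_PF hS (fun d hd => hd.1) hcon).2 x hx hxz hxF
  have h2 : IsAlgebraic (PF S (Pool.Agent.TH796.Fin.cls b)) z := by
    by_contra hcon
    exact (free_PF hS (fun d hd => hd.1) hcon).2 y hy hyz hyF
  exact meas_PF (fun d hd => hd.1) (fun d hd => hd.1) (Pool.Agent.TH796.Fin.cls_inf ha hb hab) hS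
    hz hU h1 h2

end Pool.Agent.U55.PB
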