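import Mathlib
import Pool.Agent.U55.PB.Fin

set_option autoImplicit false

/-!
# Numbers with predictable digits in independent bases
-/

namespace Pool.Agent.U55.PB

open Filter Topology Finset Pool.Agent.TH932.Abs Pool.Agent.TH932.Germs
open Pool.Agent.TH796.AL Pool.Agent.TH796.AL.Alg Pool.Agent.TH796.AL.Ai Pool.Agent.TH796.AL.TwoB
open Pool.Agent.TH796.AL.Grp Pool.Agent.TH796.AL.AlgA
open Pool.Agent.R473.TB (digit blocks)

/-- **One number, two independent sets of bases.** -/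
theorem two_PF {A A' : Set ℕ} (hA : ∀ b ∈ A, 2 ≤ b) (hA' : ∀ b ∈ A', 2 ≤ b)
    (h : GA A ⊓ GA A' = ⊥) {S : Set ℕ} (hS : S.Infinite) {x : ℝ}
    (hx : x ∈ PF S A) (hy : x ∈ PF S A') (hirr : Irrational x) : Liouville x := by
  obtain ⟨m, B, L, hL, h1⟩ := pfield ![A, A'] (by
    intro i
    fin_cases i
    · exact hA
    · exact hA') hS ![x, x] (by
      intro i
      fin_cases i
      · exact hx
      · exact hy)
  exact two (B := B) (hL := hL) tensor2_thm (disj B h) (h1 0) (h1 1) hirr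

/-- **Algebraic independence.** -/
theorem indep_PF {r : ℕ} {A : Fin r → Set ℕ} (hA : ∀ i, ∀ b ∈ A i, 2 ≤ b)
    (hΓ : GIndep fun i => GA (A i)) {S : Set ℕ} (hS : S.Infinite)
    (x : Fin r → ℝ) (hx : ∀ i, IsAlgebraic (PF S (A i)) (x i)) (htr : ∀ i, Transcendental ℚ (x i))
    (hdep : ¬ AlgebraicIndependent ℚ x) : ∃ i, UNumber (x i) := by
  by_contra hcon
  push Not at hcon
  obtain ⟨m, B, L, hL, h⟩ := pfieldAlg A hA hS x hx
  apply hdep
  refine toQ (R := RG hL B) x (kst hL) ?_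
  refine fam_indep r (fun i => UF B hL (VS B (GA (A i))))
    (fun k => UF B hL (⨆ j : Fin r, ⨆ (_ : j ≠ k), VS B (GA (A j)))) (fun k => ?_)
    (fun j k hjk => ?_) (fun i => kst hL (x i)) (fun i => alg_kst (h i)) (fun i hi => ?_)
  · exact ld (vindep B hΓ k).symm
  · exact UF_mono (le_iSup₂_of_le j hjk.ne le_rfl)
  · exact hcon i (unumber_of_alg (htr i) hi)

/-- **Irrational numbers which are not Liouville numbers, in two bases.** -/
theorem two_liouville {x : ℝ} (hx : Irrational x) (hL : ¬ Liouville x) {a b : ℕ}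
    (ha : 2 ≤ a) (hb : 2 ≤ b) (hab : Indep a b) {u v : ℕ → ℤ} {C θ : ℝ}
    (hu : ∀ k, 0 ≤ u k ∧ u k < a) (hv : ∀ k, 0 ≤ v k ∧ v k < b)
    (hCu : ∀ n : ℕ, 1 ≤ n → (blocks u n : ℝ) ≤ C * n)
    (hCv : ∀ n : ℕ, 1 ≤ n → (blocks v n : ℝ) ≤ C * n) (hθ : θ < 1) (A : ℝ) :
    ∃ M0 : ℕ, ∀ M : ℕ, M0 ≤ M → ∀ m m' r r' : ℕ, (m : ℝ) ≤ (M : ℝ) ^ θ → (m' : ℝ) ≤ (M : ℝ) ^ θ →
      Cut (fun k => digit a x k - u k) M m r → Cut (fun k => digit b x k - v k) M m' r' →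
      A * Real.log M < r + r' := by
  by_contra hcon
  push Not at hcon
  set S : Set ℕ := {M : ℕ | 1 ≤ M ∧ ∃ m m' r r' : ℕ, (m : ℝ) ≤ (M : ℝ) ^ θ ∧
    (m' : ℝ) ≤ (M : ℝ) ^ θ ∧ Cut (fun k => digit a x k - u k) M m r ∧
    Cut (fun k => digit b x k - v k) M m' r' ∧ (r : ℝ) + r' ≤ A * Real.log M} with hSdef
  have hS : S.Infinite := by
    rw [Set.infinite_iff_exists_gt]
    intro n
    obtain ⟨M, hM, m, m', r, r', h1, h2, h3, h4, h5⟩ := hcon (n + 1)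
    exact ⟨M, ⟨by omega, m, m', r, r', h1, h2, h3, h4, h5⟩, by omega⟩
  have hPx : Pred S a x := by
    refine pred_of hu hCu hθ (A := A) fun M hM => ?_
    obtain ⟨h0, m, m', r, r', h1, h2, h3, h4, h5⟩ := hM
    refine ⟨h0, m, r, h1, ?_, h3⟩
    have : (0 : ℝ) ≤ r' := Nat.cast_nonneg _
    linarith
  have hPy : Pred S b x := by
    refine pred_of hv hCv hθ (A := A) fun M hM => ?_
    obtain ⟨h0, m, m', r, r', h1, h2, h3, h4, h5⟩ := hM
    refine ⟨h0, m', r', h2, ?_, h4⟩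
    have : (0 : ℝ) ≤ r := Nat.cast_nonneg _
    linarith
  have hxF : x ∈ PF S (Pool.Agent.TH796.Fin.cls a) :=
    mem_PF_of (show a ∈ Pool.Agent.TH796.Fin.cls a from
      ⟨ha, Pool.Agent.TH796.Fin.not_indep_self a⟩) hPx
  have hyF : x ∈ PF S (Pool.Agent.TH796.Fin.cls b) :=
    mem_PF_of (show b ∈ Pool.Agent.TH796.Fin.cls b from
      ⟨hb, Pool.Agent.TH796.Fin.not_indep_self b⟩) hPy
  exact hL (two_PF (fun d hd => hd.1) (fun d hd => hd.1)
    (Pool.Agent.TH796.Fin.cls_inf ha hb hab) hS hxF hyF hx)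

end Pool.Agent.U55.PB
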