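import Mathlib

set_option autoImplicit false

/-!
# Subfields of `ℝ` in which `ℚ` is algebraically closed are linearly disjoint from the algebraic numbers
-/

namespace Pool.Agent.U55.PB

open Polynomial IntermediateField

/-- a subfield as an intermediate field -/
def ifd (K : Subfield ℝ) : IntermediateField ℚ ℝ :=
  { K with
    algebraMap_mem' := fun q => by
      show (algebraMap ℚ ℝ q) ∈ K
      exact SubfieldClass.ratCast_mem K q }

lemma minpoly_natDegree (K : IntermediateField ℚ ℝ)
    (hK : ∀ x ∈ K, Irrational x → Transcendental ℚ x) (γ : ℝ) (hγ : IsAlgebraic ℚ γ) :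
    (minpoly ℚ γ).natDegree ≤ (minpoly K γ).natDegree := by
  have hint : IsIntegral ℚ γ := hγ.isIntegral
  have hintK : IsIntegral K γ := hint.tower_top
  have hd : minpoly K γ ∣ (minpoly ℚ γ).map (algebraMap ℚ K) :=
    minpoly.dvd_map_of_isScalarTower ℚ K γ
  have h1 := integralClosure.mem_lifts_of_monic_of_dvd_map K (minpoly.monic hint)
    (minpoly.monic hintK) hd
  -- the coefficients are rational
  have h2 : ∀ i, ∃ q : ℚ, ((minpoly K γ).coeff i : ℝ) = q := by
    intro i
    rw [Polynomial.lifts_iff_coeff_lifts] at h1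
    obtain ⟨c, hc⟩ := h1 i
    have h3 : IsIntegral ℚ (c : K) := c.2
    have h4 : IsAlgebraic ℚ (((minpoly K γ).coeff i : K) : ℝ) := by
      have h5 : (algebraMap (integralClosure ℚ K) K) c = (c : K) := rfl
      rw [h5] at hc
      rw [← hc]
      exact (h3.map (IsScalarTower.toAlgHom ℚ K ℝ)).isAlgebraic
    by_contra hcon
    push Not at hcon
    refine hK _ ((minpoly K γ).coeff i).2 ?_ h4
    rintro ⟨q, hq⟩
    exact hcon q hq.symm
  choose q hq using h2
  obtain ⟨h, hh⟩ : ∃ h : ℚ[X], h = ∑ i ∈ Finset.range ((minpoly K γ).natDegree + 1),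
      Polynomial.C (q i) * X ^ i := ⟨_, rfl⟩
  have h3 : minpoly K γ = h.map (algebraMap ℚ K) := by
    conv_lhs => rw [(minpoly K γ).as_sum_range_C_mul_X_pow]
    rw [hh, Polynomial.map_sum]
    refine Finset.sum_congr rfl fun i _ => ?_
    rw [Polynomial.map_mul, Polynomial.map_C, Polynomial.map_pow, Polynomial.map_X]
    congr 2
    apply Subtype.ext
    rw [hq i]
    rfl
  have h4 : aeval γ h = 0 := by
    have h5 := minpoly.aeval K γ
    rw [h3, aeval_map_algebraMap] at h5
    exact h5
  have h5 : h ≠ 0 := by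
    intro h0
    rw [h0, Polynomial.map_zero] at h3
    exact minpoly.ne_zero hintK h3
  rw [h3, natDegree_map]
  exact natDegree_le_of_dvd (minpoly.dvd ℚ γ h4) h5

theorem linDisj_aux (K : IntermediateField ℚ ℝ)
    (hK : ∀ x ∈ K, Irrational x → Transcendental ℚ x) {n : ℕ} (α : Fin n → ℝ)
    (hα : ∀ i, IsAlgebraic ℚ (α i)) (hli : LinearIndependent ℚ α) : LinearIndependent K α := by
  obtain ⟨E, hE⟩ : ∃ E : IntermediateField ℚ ℝ, E = IntermediateField.adjoin ℚ (Set.range α) :=
    ⟨_, rfl⟩
  have hfin : FiniteDimensional ℚ E := by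
    rw [hE]
    refine finiteDimensional_adjoin fun x hx => ?_
    obtain ⟨i, rfl⟩ := hx
    exact (hα i).isIntegral
  obtain ⟨γ, hγ⟩ := Field.exists_primitive_element ℚ E
  obtain ⟨pb, hpb⟩ : ∃ pb : PowerBasis ℚ E, pb.gen = γ := by
    refine ⟨(IntermediateField.adjoin.powerBasis (Algebra.IsIntegral.isIntegral γ)).map
      ((IntermediateField.equivOfEq hγ).trans IntermediateField.topEquiv), ?_⟩
    rw [PowerBasis.map_gen, IntermediateField.adjoin.powerBasis_gen]
    rfl
  have hdim : pb.dim = (minpoly ℚ (γ : ℝ)).natDegree := by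
    rw [← pb.finrank, ← IntermediateField.minpoly_eq]
    exact ((Field.primitive_element_iff_minpoly_natDegree_eq ℚ γ).1 hγ).symm
  have hγa : IsAlgebraic ℚ (γ : ℝ) := by
    have h1 : IsIntegral ℚ γ := Algebra.IsIntegral.isIntegral γ
    exact (h1.map (IsScalarTower.toAlgHom ℚ E ℝ)).isAlgebraic
  have hle := minpoly_natDegree K hK (γ : ℝ) hγa
  have hb : LinearIndependent K (fun i : Fin pb.dim => (E.val (pb.basis i) : ℝ)) := by
    have h1 := linearIndependent_pow (K := K) (γ : ℝ)
    have h2 := h1.comp (Fin.castLE (by rw [hdim]; exact hle) : Fin pb.dim → _)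
      (Fin.castLE_injective _)
    have e : (fun i : Fin pb.dim => (E.val (pb.basis i) : ℝ)) =
        (fun i : Fin (minpoly K (γ : ℝ)).natDegree => (γ : ℝ) ^ (i : ℕ)) ∘
          (Fin.castLE (by rw [hdim]; exact hle) : Fin pb.dim → _) := by
      funext i
      rw [pb.basis_eq_pow, hpb]
      simp
    rw [e]
    exact h2
  have hdis : K.LinearDisjoint E := IntermediateField.LinearDisjoint.of_basis_right pb.basis hb
  have hmem : ∀ i, α i ∈ E := fun i => by
    rw [hE]
    exact IntermediateField.subset_adjoin _ _ ⟨i, rfl⟩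
  have hli' : LinearIndependent ℚ (fun i => (⟨α i, hmem i⟩ : E)) := by
    have h1 : LinearIndependent ℚ (E.val.toLinearMap ∘ fun i => (⟨α i, hmem i⟩ : E)) := hli
    exact h1.of_comp _
  exact hdis.linearIndependent_right hli'

/-- **Linear disjointness.** -/
theorem linDisj (K : Subfield ℝ) (hK : ∀ x ∈ K, Irrational x → Transcendental ℚ x) {n : ℕ}
    (α : Fin n → ℝ) (hα : ∀ i, IsAlgebraic ℚ (α i)) (hli : LinearIndependent ℚ α) :
    LinearIndependent K α := by
  have h := linDisj_aux (ifd K) hK α hα hli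
  rw [Fintype.linearIndependent_iff] at h ⊢
  intro g hg i
  have h1 := h (fun i => (⟨(g i : ℝ), (g i).2⟩ : ifd K)) hg i
  exact Subtype.ext (congrArg (fun t : ifd K => (t : ℝ)) h1)

end Pool.Agent.U55.PB
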